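import Pool.Agent.R674.Tw.Sub
import Pool.Agent.R674.Tw.Filt
import Pool.Agent.Y63.NV.Kalt
import Pool.Agent.Y171.NV.Kfin

/-!
# Alternating sums of the numbers of characters fixed by a coset: values of central characters
-/

set_option autoImplicit false

open scoped Classical BigOperators

noncomputable section

namespace Pool.Agent.R674.Tw

open Pool.Agent.Y63.NV
open Pool.Agent.Y63.KR
open Pool.Agent.Y930.NV
open Pool.Agent.Y63.AWC (IsIrreducibleCharacter)

section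

variable {F : Type} [Field F] {Γ : Type} [Group Γ] [Finite Γ]

theorem gk_empty (z : Γ → F) (J : Subgroup Γ) (c : F) : gk z (∅ : Set Γ) J c = 0 := by
  have h2 : (VS (∅ : Set Γ) J : Submodule F (Γ → F)) = ⊥ := by
    rw [eq_bot_iff]
    intro v hv
    rw [Submodule.mem_bot]
    funext x
    exact hv.1 x (by simp)
  rw [gk, h2, bot_inf_eq, finrank_bot]

/-- the elements of `K` in the coset `y` -/
def Ts (G K : Subgroup Γ) (y : Γ ⧸ G) : Set Γ := {x | x ∈ K ∧ (x : Γ ⧸ G) = y}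

theorem mk_conj' (G : Subgroup Γ) [G.Normal] {g : Γ} (hg : g ∈ G) (x : Γ) :
    ((g * x * g⁻¹ : Γ) : Γ ⧸ G) = (x : Γ ⧸ G) := by
  have h1 : ((g : Γ) : Γ ⧸ G) = 1 := (QuotientGroup.eq_one_iff g).2 hg
  rw [QuotientGroup.mk_mul, QuotientGroup.mk_mul, QuotientGroup.mk_inv, h1, inv_one, mul_one,
    one_mul]

theorem cst_ts (G K : Subgroup Γ) [G.Normal] (y : Γ ⧸ G) : CSt (G ⊓ K) (Ts G K y) := by
  rintro h hh x ⟨hx1, hx2⟩
  obtain ⟨h1, h2⟩ := Subgroup.mem_inf.1 hh
  refine ⟨K.mul_mem (K.mul_mem h2 hx1) (K.inv_mem h2), ?_⟩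
  rw [mk_conj' G h1, hx2]

/-- the number of irreducible characters fixed by a coset, by values of central characters -/
def Kx (red : integralClosure ℤ ℂ →+* F) (G : Subgroup Γ) (y : Γ ⧸ G) (z : Γ → F) (c : F)
    (σ : Set (Subgroup Γ)) : ℕ :=
  Nat.card {χ : NG G σ → ℂ // IsIrreducibleCharacter χ ∧
    (∃ h ∈ chainStabilizer σ, (h : Γ ⧸ G) = y ∧ Fixes h χ) ∧
    centralValue red χ (fun x => z x) = c}

theorem cut_conj' {z : Γ → F} {G : Subgroup Γ} (hz : ∀ g ∈ G, ∀ x, z (g * x * g⁻¹) = z x)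
    {H : Subgroup Γ} (hHG : H ≤ G) {h : Γ} (hh : h ∈ H) (x : Γ) :
    cut z H (h * x * h⁻¹) = cut z H x := by
  unfold cut
  have : h * x * h⁻¹ ∈ H ↔ x ∈ H := by
    constructor
    · intro h1
      have h2 := H.mul_mem (H.mul_mem (H.inv_mem hh) h1) hh
      have e : h⁻¹ * (h * x * h⁻¹) * h = x := by group
      rwa [e] at h2
    · intro h1
      exact H.mul_mem (H.mul_mem hh h1) (H.inv_mem hh)
  by_cases hx : x ∈ H
  · rw [if_pos hx, if_pos (this.2 hx), hz h (hHG hh)]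
  · rw [if_neg hx, if_neg (fun h => hx (this.1 h))]

theorem kx_eq (red : integralClosure ℤ ℂ →+* F) (G : Subgroup Γ) [G.Normal] (y : Γ ⧸ G)
    {z : Γ → F} (hz : ∀ g ∈ G, ∀ x, z (g * x * g⁻¹) = z x) (c : F) (σ : Set (Subgroup Γ)) :
    Kx red G y z c σ = gk (cut z (NG G σ)) (Ts G (chainStabilizer σ) y) (NG G σ) c := by
  by_cases hne : ∃ h ∈ chainStabilizer σ, (h : Γ ⧸ G) = y
  · obtain ⟨h, hh, hy⟩ := hne
    have hhN : ∀ n, n ∈ NG G σ ↔ h * n * h⁻¹ ∈ NG G σ := by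
      intro n
      refine ⟨fun hn => ng_conj G hh hn, fun hn => ?_⟩
      have h1 := ng_conj G (Subgroup.inv_mem _ hh) hn
      have e : h⁻¹ * (h * n * h⁻¹) * h⁻¹⁻¹ = n := by group
      rwa [e] at h1
    have hS : Ts G (chainStabilizer σ) y = {x : Γ | x * h⁻¹ ∈ NG G σ} := by
      ext x
      constructor
      · rintro ⟨h1, h2⟩
        refine Subgroup.mem_inf.2 ⟨?_, Subgroup.mul_mem _ h1 (Subgroup.inv_mem _ hh)⟩
        rw [← hy, QuotientGroup.eq_iff_div_mem, div_eq_mul_inv] at h2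
        exact h2
      · intro h1
        obtain ⟨h2, h3⟩ := Subgroup.mem_inf.1 h1
        refine ⟨?_, ?_⟩
        · have h4 := Subgroup.mul_mem _ h3 hh
          rwa [inv_mul_cancel_right] at h4
        · rw [← hy, QuotientGroup.eq_iff_div_mem, div_eq_mul_inv]
          exact h2
    have h1 := tdimh red (NG G σ) h hhN (cut z (NG G σ)) c
      (fun n hn x => cut_conj' hz (ng_le G σ) hn x) (fun x hx => if_neg hx)
    rw [← hS] at h1
    rw [← h1]
    have e1 : (fun x : NG G σ => z x) = fun x : NG G σ => cut z (NG G σ) x := by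
      funext x
      unfold cut
      rw [if_pos x.2]
    unfold Kx KnumT
    rw [e1]
    refine Nat.card_congr (Equiv.subtypeEquivRight fun χ => ?_)
    constructor
    · rintro ⟨h2, ⟨h', hh', hy', h3⟩, h4⟩
      refine ⟨h2, ?_, h4⟩
      intro n n' hn
      -- `h = g h'` with `g ∈ N_G(σ)`
      have hg : h' * h⁻¹ ∈ NG G σ := by
        have : h' ∈ Ts G (chainStabilizer σ) y := ⟨hh', hy'⟩
        rw [hS] at this
        exact this
      let g : NG G σ := ⟨h' * h⁻¹, hg⟩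
      have h5 : χ (g * n' * g⁻¹) = χ n := by
        refine h3 n _ ?_
        rw [Subgroup.coe_mul, Subgroup.coe_mul, Subgroup.coe_inv, hn]
        change h' * h⁻¹ * (h * n * h⁻¹) * (h' * h⁻¹)⁻¹ = _
        group
      rw [← h5]
      exact Pool.Agent.Y286.NV.irr_class h2 n' (g * n' * g⁻¹) (isConj_iff.2 ⟨g, rfl⟩)
    · rintro ⟨h2, h3, h4⟩
      exact ⟨h2, ⟨h, hh, hy, h3⟩, h4⟩
  · have hS : Ts G (chainStabilizer σ) y = ∅ := by
      ext x
      simp only [Set.mem_empty_iff_false, iff_false]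
      rintro ⟨h1, h2⟩
      exact hne ⟨x, h1, h2⟩
    rw [hS, gk_empty]
    unfold Kx
    have : IsEmpty {χ : NG G σ → ℂ // IsIrreducibleCharacter χ ∧
        (∃ h ∈ chainStabilizer σ, (h : Γ ⧸ G) = y ∧ Fixes h χ) ∧
        centralValue red χ (fun x => z x) = c} := by
      refine ⟨fun χ => hne ?_⟩
      obtain ⟨h, h1, h2, _⟩ := χ.2.2.1
      exact ⟨h, h1, h2⟩
    exact Nat.card_of_isEmpty

/-- the weight function -/
def wX (p : ℕ) (G : Subgroup Γ) (y : Γ ⧸ G) (z : Γ → F) (c : F) (R K : Subgroup Γ) : ℤ :=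
  (Nat.card ↥(G ⊓ K) : ℤ) * gk (cut (cut z (G ⊓ K)) (Subgroup.centralizer (R : Set Γ)))
    (SAT p (Ts G K y) (G ⊓ K) R) (G ⊓ K) c

theorem sat_eq (p : ℕ) (G K : Subgroup Γ) (y : Γ ⧸ G) (R J : Subgroup Γ) :
    SAT p (Ts G K y) J R = SAT p (Ts G (K ⊓ Subgroup.normalizer (R : Set Γ)) y) J R := by
  ext x
  constructor
  · rintro ⟨⟨h1, h2⟩, h3, h4⟩
    refine ⟨⟨Subgroup.mem_inf.2 ⟨h1, ?_⟩, h2⟩, h3, h4⟩
    apply Subgroup.centralizer_le_normalizer
    rw [Subgroup.mem_centralizer_iff]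
    exact h3
  · rintro ⟨⟨h1, h2⟩, h3, h4⟩
    exact ⟨⟨(Subgroup.mem_inf.1 h1).1, h2⟩, h3, h4⟩

theorem kx_filt {p : ℕ} [Fact p.Prime] [IsAlgClosed F] [CharP F p]
    (red : integralClosure ℤ ℂ →+* F) (G : Subgroup Γ) [G.Normal] (y : Γ ⧸ G)
    {z : Γ → F} (hz : ∀ g ∈ G, ∀ x, z (g * x * g⁻¹) = z x) (c : F) (σ : Set (Subgroup Γ)) :
    (Nat.card (NG G σ) : ℤ) * Kx red G y z c σ =
      ∑ᶠ R : Subgroup Γ, (if IsPGroup p R ∧ R ≤ NG G σ then
        wX p G y z c R (chainStabilizer σ ⊓ Subgroup.normalizer (R : Set Γ)) else 0) := by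
  have : Fintype (Subgroup Γ) := Fintype.ofFinite _
  rw [kx_eq red G y hz c σ]
  have h2 := tfilt (p := p) (H := NG G σ) (T := Ts G (chainStabilizer σ) y)
    (cst_ts G (chainStabilizer σ) y) (z := cut z (NG G σ)) c
    (fun h hh x => cut_conj' hz (ng_le G σ) hh x)
  rw [← Nat.cast_mul, h2, finsum_eq_sum_of_fintype, finsum_eq_sum_of_fintype, Nat.cast_sum]
  refine Finset.sum_congr rfl fun R _ => ?_
  by_cases hR : IsPGroup p R ∧ R ≤ NG G σ
  · rw [if_pos hR, if_pos hR, Nat.cast_mul, cut_cut]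
    unfold wX
    have e1 : NG G σ ⊓ Subgroup.normalizer (R : Set Γ) =
        G ⊓ (chainStabilizer σ ⊓ Subgroup.normalizer (R : Set Γ)) := inf_assoc _ _ _
    rw [e1, sat_eq p G (chainStabilizer σ) y R]
  · rw [if_neg hR, if_neg hR, Nat.cast_zero]

theorem toggle_le {G R : Subgroup Γ} (hRG : R ≤ G) {σ : Set (Subgroup Γ)}
    (h : ∀ P ∈ σ, P ≤ G) : ∀ P ∈ toggle R σ, P ≤ G := by
  have h1 : toggled R σ ≤ G := sup_le (sSup_le fun P hP => h P hP.1) hRG
  intro P hP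
  unfold toggle at hP
  split_ifs at hP
  · exact h P hP.1
  · rcases hP with hP | hP
    · rw [hP]
      exact h1
    · exact h P hP

/-- the chains normalised by a nontrivial `p`-subgroup `R` cancel -/
theorem togG {p : ℕ} [Fact p.Prime] (w : Subgroup Γ → ℤ) {G R : Subgroup Γ} (hRG : R ≤ G)
    (hR : IsPGroup p R) (hR1 : R ≠ ⊥) [Fintype (GCh p G)] :
    ∑ σ : GCh p G, (-1) ^ σ.1.ncard *
      (if R ≤ chainStabilizer σ.1 then
        w (chainStabilizer σ.1 ⊓ Subgroup.normalizer (R : Set Γ)) else 0) = 0 := by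
  set f : GCh p G → ℤ := fun σ => (-1) ^ σ.1.ncard *
    w (chainStabilizer σ.1 ⊓ Subgroup.normalizer (R : Set Γ)) with hf
  have h1 : ∀ σ : GCh p G, (-1) ^ σ.1.ncard *
      (if R ≤ chainStabilizer σ.1 then
        w (chainStabilizer σ.1 ⊓ Subgroup.normalizer (R : Set Γ)) else 0) =
      if R ≤ chainStabilizer σ.1 then f σ else 0 := by
    intro σ
    by_cases h : R ≤ chainStabilizer σ.1
    · rw [if_pos h, if_pos h]
    · rw [if_neg h, if_neg h, mul_zero]
  rw [Finset.sum_congr rfl fun σ _ => h1 σ, ← Finset.sum_filter]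
  refine Finset.sum_involution
    (fun σ hσ => ⟨toggle R σ.1, (stab_le_toggle hR hR1 σ.2.1 (Finset.mem_filter.mp hσ).2).1,
      toggle_le hRG σ.2.2⟩)
    ?_ ?_ ?_ ?_
  · intro σ hσ
    have hσ1 := (Finset.mem_filter.mp hσ).2
    have h3 := (stab_toggle hR hR1 σ.2.1 hσ1).2
    simp only [hf]
    rw [ncard_toggle, h3]
    ring
  · intro σ hσ _ h
    have h1 : toggle R σ.1 = σ.1 := congrArg Subtype.val h
    have h2 := ncard_toggle R σ.1
    rw [h1] at h2
    have h3 : ((-1 : ℤ)) ^ σ.1.ncard ≠ 0 := pow_ne_zero _ (by norm_num)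
    omega
  · intro σ hσ
    exact Finset.mem_filter.2
      ⟨Finset.mem_univ _, (stab_toggle hR hR1 σ.2.1 (Finset.mem_filter.mp hσ).2).1⟩
  · intro σ hσ
    apply Subtype.ext
    exact toggle_toggle R σ.1

/-- the vanishing of the alternating sum, by values of central characters -/
theorem sum_kx {p : ℕ} [Fact p.Prime] [IsAlgClosed F] [CharP F p]
    (red : integralClosure ℤ ℂ →+* F) (G : Subgroup Γ) [G.Normal] (y : Γ ⧸ G)
    (hy : ∀ e : Γ, (e : Γ ⧸ G) = y → p ∣ Nat.card ↥(Subgroup.zpowers e ⊓ G))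
    {z : Γ → F} (hz : ∀ g ∈ G, ∀ x, z (g * x * g⁻¹) = z x) (c : F) [Fintype (GCh p G)] :
    ∑ σ : GCh p G, (-1) ^ σ.1.ncard * ((Nat.card (NG G σ.1) : ℤ) * Kx red G y z c σ.1) = 0 := by
  have : Fintype (Subgroup Γ) := Fintype.ofFinite _
  have h1 : ∀ σ : GCh p G, (Nat.card (NG G σ.1) : ℤ) * Kx red G y z c σ.1 =
      ∑ R : Subgroup Γ, (if IsPGroup p R ∧ R ≤ NG G σ.1 then
        wX p G y z c R (chainStabilizer σ.1 ⊓ Subgroup.normalizer (R : Set Γ)) else 0) := by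
    intro σ
    rw [kx_filt (p := p) red G y hz c σ.1, finsum_eq_sum_of_fintype]
  simp only [h1, Finset.mul_sum]
  rw [Finset.sum_comm]
  refine Finset.sum_eq_zero fun R _ => ?_
  by_cases hR : IsPGroup p R ∧ R ≤ G
  · by_cases hR1 : R = ⊥
    · refine Finset.sum_eq_zero fun σ _ => ?_
      rw [if_pos ⟨hR.1, by rw [hR1]; exact bot_le⟩, hR1, normalizer_bot, inf_top_eq]
      have hS : SAT p (Ts G (chainStabilizer σ.1) y) (G ⊓ chainStabilizer σ.1) ⊥ = ∅ := by
        ext x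
        simp only [Set.mem_empty_iff_false, iff_false]
        rintro ⟨⟨hx1, hx2⟩, _, hx4⟩
        have h3 := hy x hx2
        have h4 : Subgroup.zpowers x ⊓ G ≤
            G ⊓ chainStabilizer σ.1 ⊓ Subgroup.centralizer ({x} : Set Γ) := by
          intro g hg
          obtain ⟨hg1, hg2⟩ := Subgroup.mem_inf.1 hg
          refine Subgroup.mem_inf.2 ⟨Subgroup.mem_inf.2 ⟨hg2, ?_⟩, ?_⟩
          · exact (Subgroup.zpowers_le.2 hx1) hg1
          · obtain ⟨k, rfl⟩ := Subgroup.mem_zpowers_iff.1 hg1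
            rw [Subgroup.mem_centralizer_singleton_iff]
            exact ((Commute.refl x).zpow_left k).eq
        have h5 := h3.trans (Subgroup.card_dvd_of_le h4)
        rw [Subgroup.card_bot, Nat.factorization_one] at hx4
        rcases (Nat.factorization_eq_zero_iff _ _).1 hx4 with h6 | h6 | h6
        · exact h6 Fact.out
        · exact h6 h5
        · exact Nat.card_pos.ne' h6
      unfold wX
      rw [hS, gk_empty, Nat.cast_zero, mul_zero, mul_zero]
    · have h := togG (p := p) (fun K => wX p G y z c R K) hR.2 hR.1 hR1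
      refine Eq.trans ?_ h
      refine Finset.sum_congr rfl fun σ _ => ?_
      by_cases h1 : R ≤ chainStabilizer σ.1
      · rw [if_pos ⟨hR.1, le_inf hR.2 h1⟩, if_pos h1]
      · rw [if_neg (fun h => h1 (h.2.trans inf_le_right)), if_neg h1]
  · refine Finset.sum_eq_zero fun σ _ => ?_
    rw [if_neg (fun h => hR ⟨h.1, h.2.trans (ng_le G σ.1)⟩), mul_zero]

end

end Pool.Agent.R674.Tw
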