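import Pool.Agent.R674.Tw.Chain

/-!
# Alternating sums of the numbers of characters in a block with a given inertial group
-/

set_option autoImplicit false

open scoped Classical BigOperators

noncomputable section

namespace Pool.Agent.R674.Tw

open Pool.Agent.Y63.NV
open Pool.Agent.Y63.KR
open Pool.Agent.Y930.NV
open Pool.Agent.Y63.AWC (IsIrreducibleCharacter irr_comp)
open Pool.Agent.Y171.NV (CFm blk irr_fin card_fib)
open Pool.Agent.Y286.NV (exists_sep centralValue_comp irr_class)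
open Pool.Agent.R674.KB (extZ extZ_mem extZ_not)

section

variable {F : Type} [Field F] {E : Type} [Group E] [Finite E]

/-- the coset `y` fixes `χ` -/
def FixY (G : Subgroup E) (y : E ⧸ G) (σ : Set (Subgroup E)) (χ : NG G σ → ℂ) : Prop :=
  ∃ h ∈ chainStabilizer σ, (h : E ⧸ G) = y ∧ Fixes h χ

theorem mem_NEbar (G : Subgroup E) [G.Normal] (y : E ⧸ G) (σ : Set (Subgroup E))
    (χ : NG G σ → ℂ) : y ∈ NEbar G σ χ ↔ FixY G y σ χ := by
  unfold NEbar
  rw [Subgroup.mem_map]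
  constructor
  · rintro ⟨h, h1, h2⟩
    exact ⟨h, h1.1, h2, h1.2⟩
  · rintro ⟨h, h1, h2, h3⟩
    exact ⟨h, ⟨h1, h3⟩, h2⟩

/-- the functional of a character -/
def mu2 (red : integralClosure ℤ ℂ →+* F) (G : Subgroup E) (σ : Set (Subgroup E))
    (χ : NG G σ → ℂ) : CFm G F →ₗ[F] F where
  toFun z := centralValue red χ (fun x => z.1 ⟨x, ng_le G σ x.2⟩)
  map_add' a b := by
    unfold centralValue
    rw [← finsum_add_distrib (Set.toFinite _) (Set.toFinite _)]
    refine finsum_congr fun C => ?_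
    rw [← add_mul]
    rfl
  map_smul' c a := by
    unfold centralValue
    rw [RingHom.id_apply, smul_finsum' c (Set.toFinite _)]
    refine finsum_congr fun C => ?_
    rw [smul_eq_mul, ← mul_assoc]
    rfl

/-- the number of characters in a block fixed by a coset -/
def kY (red : integralClosure ℤ ℂ →+* F) (G : Subgroup E) (B : (G → F) → F) (y : E ⧸ G)
    (σ : Set (Subgroup E)) : ℕ :=
  Nat.card {χ : NG G σ → ℂ // IsIrreducibleCharacter χ ∧ FixY G y σ χ ∧ IndB red G σ χ B}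

theorem sum_kY {p : ℕ} [Fact p.Prime] [IsAlgClosed F] [CharP F p]
    (red : integralClosure ℤ ℂ →+* F) (G : Subgroup E) [G.Normal] (y : E ⧸ G)
    (hy : ∀ e : E, (e : E ⧸ G) = y → p ∣ Nat.card ↥(Subgroup.zpowers e ⊓ G))
    {B : (G → F) → F} (hB : IsBlock B) [Fintype (GCh p G)] :
    ∑ σ : GCh p G, (-1) ^ σ.1.ncard * ((Nat.card (NG G σ.1) : ℤ) * kY red G B y σ.1) = 0 := by
  have hInf : Infinite F := inferInstance
  have hX : ∀ H : Subgroup E, Finite {χ : H → ℂ // IsIrreducibleCharacter χ} := fun H => irr_fin H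
  let I : Type := Σ σ : GCh p G, {χ : NG G σ.1 → ℂ // IsIrreducibleCharacter χ}
  have hI : Finite I := inferInstance
  let μ : I → (CFm G F →ₗ[F] F) := fun i => mu2 red G i.1.1 i.2.1
  obtain ⟨z, hz⟩ := exists_sep μ (blk hB)
  have hzE : ∀ g ∈ G, ∀ x, extZ G z.1 (g * x * g⁻¹) = extZ G z.1 x := by
    intro g hg x
    by_cases hx : x ∈ G
    · have hx' : g * x * g⁻¹ ∈ G := G.mul_mem (G.mul_mem hg hx) (G.inv_mem hg)
      have e1 := extZ_mem z.1 ⟨_, hx'⟩
      have e2 := extZ_mem z.1 ⟨_, hx⟩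
      change extZ G z.1 (g * x * g⁻¹) = _ at e1
      change extZ G z.1 x = _ at e2
      rw [e1, e2]
      exact z.2 ⟨g, hg⟩ ⟨x, hx⟩
    · have hx' : g * x * g⁻¹ ∉ G := by
        intro hx'
        apply hx
        have h1 := G.mul_mem (G.mul_mem (G.inv_mem hg) hx') hg
        have e : g⁻¹ * (g * x * g⁻¹) * g = x := by group
        rwa [e] at h1
      rw [extZ_not _ hx, extZ_not _ hx']
  have h1 := sum_kx (p := p) red G y hy hzE (blk hB z)
  rw [← h1]
  refine Finset.sum_congr rfl fun σ _ => ?_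
  congr 2
  norm_cast
  unfold kY Kx
  refine Nat.card_congr (Equiv.subtypeEquivRight fun χ => ?_)
  have e1 : centralValue red χ (fun x : NG G σ.1 => extZ G z.1 (x : E)) =
      mu2 red G σ.1 χ z := by
    change _ = centralValue red χ (fun x : NG G σ.1 => z.1 ⟨x, ng_le G σ.1 x.2⟩)
    congr 1
    funext x
    exact extZ_mem z.1 ⟨x, ng_le G σ.1 x.2⟩
  constructor
  · rintro ⟨h2, h3, h4⟩
    refine ⟨h2, h3, ?_⟩
    rw [e1]
    exact h4 z.1 z.2
  · rintro ⟨h2, h3, h4⟩
    refine ⟨h2, h3, ?_⟩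
    rw [e1] at h4
    have h5 : mu2 red G σ.1 χ = blk hB := hz ⟨σ, ⟨χ, h2⟩⟩ h4
    intro f hf
    have h6 := congrFun (congrArg DFunLike.coe h5) ⟨f, hf⟩
    exact h6

/-! ### conjugation -/

theorem stab_conj_mem (σ : Set (Subgroup E)) (g x : E) :
    x ∈ chainStabilizer (conjSub g '' σ) ↔ g⁻¹ * x * g ∈ chainStabilizer σ := by
  rw [chainStabilizer_conj, mem_conjSub]

theorem ng_conj_mem (G : Subgroup E) (σ : Set (Subgroup E)) {g : E} (hg : g ∈ G) (x : E) :
    x ∈ NG G (conjSub g '' σ) ↔ g⁻¹ * x * g ∈ NG G σ := by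
  unfold NG
  rw [Subgroup.mem_inf, Subgroup.mem_inf, stab_conj_mem]
  refine and_congr_left fun _ => ?_
  constructor
  · intro h
    exact G.mul_mem (G.mul_mem (G.inv_mem hg) h) hg
  · intro h
    have h1 := G.mul_mem (G.mul_mem hg h) (G.inv_mem hg)
    have e : g * (g⁻¹ * x * g) * g⁻¹ = x := by group
    rwa [e] at h1

/-- conjugation `N_G(σ) → N_G(gσ)` -/
def ce (G : Subgroup E) (σ : Set (Subgroup E)) {g : E} (hg : g ∈ G) :
    NG G σ ≃* NG G (conjSub g '' σ) where
  toFun n := ⟨g * n * g⁻¹, (ng_conj_mem G σ hg _).2 (by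
    have e : g⁻¹ * (g * n * g⁻¹) * g = n := by group
    rw [e]
    exact n.2)⟩
  invFun n := ⟨g⁻¹ * n * g, (ng_conj_mem G σ hg _).1 n.2⟩
  left_inv n := Subtype.ext (by
    change g⁻¹ * (g * n * g⁻¹) * g = n
    group)
  right_inv n := Subtype.ext (by
    change g * (g⁻¹ * n * g) * g⁻¹ = n
    group)
  map_mul' a b := Subtype.ext (by
    change g * (a * b) * g⁻¹ = g * a * g⁻¹ * (g * b * g⁻¹)
    group)

theorem ce_coe (G : Subgroup E) (σ : Set (Subgroup E)) {g : E} (hg : g ∈ G) (n : NG G σ) :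
    ((ce G σ hg n : NG G (conjSub g '' σ)) : E) = g * n * g⁻¹ := rfl

theorem fixY_conj (G : Subgroup E) [G.Normal] (y : E ⧸ G) (σ : Set (Subgroup E)) {g : E}
    (hg : g ∈ G) (χ : NG G (conjSub g '' σ) → ℂ) :
    FixY G y σ (fun n => χ (ce G σ hg n)) ↔ FixY G y (conjSub g '' σ) χ := by
  constructor
  · rintro ⟨h, h1, h2, h3⟩
    refine ⟨g * h * g⁻¹, ?_, ?_, ?_⟩
    · rw [stab_conj_mem]
      have e : g⁻¹ * (g * h * g⁻¹) * g = h := by group
      rw [e]
      exact h1
    · rw [mk_conj' G hg, h2]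
    · intro n n' hn
      have h4 := h3 ((ce G σ hg).symm n) ((ce G σ hg).symm n') (by
        change g⁻¹ * (n' : E) * g = h * (g⁻¹ * (n : E) * g) * h⁻¹
        rw [hn]
        group)
      simp only [MulEquiv.apply_symm_apply] at h4
      exact h4
  · rintro ⟨h, h1, h2, h3⟩
    refine ⟨g⁻¹ * h * g, (stab_conj_mem σ g h).1 h1, ?_, ?_⟩
    · have h4 := mk_conj' G (G.inv_mem hg) h
      rw [inv_inv] at h4
      rw [h4, h2]
    · intro n n' hn
      refine h3 _ _ ?_
      rw [ce_coe, ce_coe, hn]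
      group

theorem nebar_conj (G : Subgroup E) [G.Normal] (σ : Set (Subgroup E)) {g : E}
    (hg : g ∈ G) (χ : NG G (conjSub g '' σ) → ℂ) :
    NEbar G σ (fun n => χ (ce G σ hg n)) = NEbar G (conjSub g '' σ) χ := by
  ext y
  rw [mem_NEbar, mem_NEbar, fixY_conj]

theorem indB_conj (red : integralClosure ℤ ℂ →+* F) (G : Subgroup E) [G.Normal]
    (σ : Set (Subgroup E)) {g : E} (hg : g ∈ G) (χ : NG G (conjSub g '' σ) → ℂ)
    (hχ : IsIrreducibleCharacter χ) (B : (G → F) → F) :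
    IndB red G σ (fun n => χ (ce G σ hg n)) B ↔ IndB red G (conjSub g '' σ) χ B := by
  refine forall_congr' fun f => forall_congr' fun hf => ?_
  have h1 := centralValue_comp red (ce G σ hg) χ (irr_class hχ)
    (fun x => f ⟨x, ng_le G _ x.2⟩)
    (fun a x => by
      have h2 := hf ⟨a, ng_le G _ a.2⟩ ⟨x, ng_le G _ x.2⟩
      exact h2)
  rw [← h1]
  have h3 : (fun x : NG G σ => f ⟨x, ng_le G σ x.2⟩) =
      fun x : NG G σ => f ⟨ce G σ hg x, ng_le G _ (ce G σ hg x).2⟩ := by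
    funext x
    have h2 := hf ⟨g, hg⟩ ⟨x, ng_le G σ x.2⟩
    rw [← h2]
    rfl
  rw [h3]

theorem kU_conj (red : integralClosure ℤ ℂ →+* F) (G : Subgroup E) [G.Normal]
    (B : (G → F) → F) (U : Subgroup (E ⧸ G)) (σ : Set (Subgroup E)) {g : E} (hg : g ∈ G) :
    kU red G B U (conjSub g '' σ) = kU red G B U σ := by
  unfold kU
  refine Nat.card_congr
    { toFun := fun χ => ⟨fun n => χ.1 (ce G σ hg n), irr_comp (ce G σ hg) χ.2.1, ?_, ?_⟩
      invFun := fun χ => ⟨fun n => χ.1 ((ce G σ hg).symm n), irr_comp (ce G σ hg).symm χ.2.1,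
        ?_, ?_⟩
      left_inv := fun χ => ?_
      right_inv := fun χ => ?_ }
  · rw [nebar_conj]
    exact χ.2.2.1
  · rw [indB_conj red G σ hg χ.1 χ.2.1]
    exact χ.2.2.2
  · rw [← nebar_conj G σ hg]
    simp only [MulEquiv.symm_apply_apply]
    exact χ.2.2.1
  · rw [← indB_conj red G σ hg _ (irr_comp (ce G σ hg).symm χ.2.1)]
    simp only [MulEquiv.symm_apply_apply]
    exact χ.2.2.2
  · apply Subtype.ext
    funext n
    simp only [MulEquiv.apply_symm_apply]
  · apply Subtype.ext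
    funext n
    simp only [MulEquiv.symm_apply_apply]

end

end Pool.Agent.R674.Tw
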