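import Pool.Agent.R674.Tw.Cx

/-!
# The number of invariant irreducible characters with a given value of the central character
-/

set_option autoImplicit false

open scoped Classical
open Polynomial (X C)

noncomputable section

namespace Pool.Agent.R674.Tw

open Pool.Agent.Y63.NV
open Pool.Agent.Y930.NV
open Pool.Agent.R674.KB
open Pool.Agent.Y63.AWC (IsIrreducibleCharacter)
open Pool.Agent.Helper884.IC (Irr mem_Irr B IsClass B_irr cardG_ne)

section cx

variable {J : Type} [Group J] [Fintype J]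

theorem irr_alpha (α : J ≃* J) {χ : J → ℂ} (h : IsIrreducibleCharacter χ) :
    IsIrreducibleCharacter (fun x => χ (α x)) := Pool.Agent.Y63.AWC.irr_comp α h

theorem finrank_Sc (α : J ≃* J) {χ : J → ℂ} (hχ : IsIrreducibleCharacter χ) :
    Module.finrank ℂ (Sc α χ) = if ∀ x, χ (α x) = χ x then 1 else 0 := by
  have h1 := (Tc_proj (α := α) hχ).trace
  rw [trace_Tc hχ, B_irr hχ (irr_alpha α hχ)] at h1
  by_cases h : ∀ x, χ (α x) = χ x
  · rw [if_pos h]
    rw [if_pos (funext fun x => (h x).symm)] at h1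
    exact_mod_cast h1.symm
  · rw [if_neg h]
    rw [if_neg (fun h' => h fun x => (congrFun h' x).symm)] at h1
    exact_mod_cast h1.symm

/-- the invariant irreducible characters -/
def Ia (α : J ≃* J) : Type := {χ : Irr J // ∀ x, χ.1 (α x) = χ.1 x}

instance (α : J ≃* J) : Fintype (Ia α) := by
  unfold Ia
  exact Fintype.ofFinite _

theorem exists_gen (α : J ≃* J) (χ : Ia α) : ∃ v ∈ Sc α χ.1.1, v ≠ 0 ∧
    ∀ w ∈ Sc α χ.1.1, ∃ c : ℂ, c • v = w := by
  have h1 := finrank_Sc α (mem_Irr.1 χ.1.2)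
  rw [if_pos χ.2] at h1
  obtain ⟨v, hv, h2⟩ := finrank_eq_one_iff'.1 h1
  refine ⟨v.1, v.2, fun h => hv (Subtype.ext h), fun w hw => ?_⟩
  obtain ⟨c, hc⟩ := h2 ⟨w, hw⟩
  exact ⟨c, congrArg Subtype.val hc⟩

/-- a generator of the component -/
def bv (α : J ≃* J) (χ : Ia α) : J → ℂ := (exists_gen α χ).choose

theorem bv_mem (α : J ≃* J) (χ : Ia α) : bv α χ ∈ Sc α χ.1.1 := (exists_gen α χ).choose_spec.1

theorem bv_ne (α : J ≃* J) (χ : Ia α) : bv α χ ≠ 0 := (exists_gen α χ).choose_spec.2.1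

theorem bv_gen (α : J ≃* J) (χ : Ia α) : ∀ w ∈ Sc α χ.1.1, ∃ c : ℂ, c • bv α χ = w :=
  (exists_gen α χ).choose_spec.2.2

theorem bv_eig (α : J ≃* J) (χ : Ia α) {f : J → ℂ} (hf : Cf f) :
    Ml f (bv α χ) = om χ.1.1 f • bv α χ := by
  have h1 := Ml_Ml (mem_Irr.1 χ.1.2) hf (bv α χ)
  rw [(bv_mem α χ).2] at h1
  exact h1

theorem sc_zero (α : J ≃* J) {χ : J → ℂ} (hχ : IsIrreducibleCharacter χ)
    (h : ¬ ∀ x, χ (α x) = χ x) {v : J → ℂ} (hv : v ∈ Sc α χ) : v = 0 := by
  have h1 := finrank_Sc α hχ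
  rw [if_neg h, Submodule.finrank_eq_zero] at h1
  rw [h1] at hv
  exact (Submodule.mem_bot ℂ).1 hv

theorem span_bv (α : J ≃* J) {v : J → ℂ} (hv : v ∈ TV ℂ α) :
    v ∈ Submodule.span ℂ (Set.range (bv α)) := by
  rw [← sum_Ml v]
  refine Submodule.sum_mem _ fun χ hχ => ?_
  have h1 := Ml_Sc (α := α) (mem_Irr.1 hχ) hv
  by_cases h : ∀ x, χ (α x) = χ x
  · obtain ⟨c, hc⟩ := bv_gen α ⟨⟨χ, hχ⟩, h⟩ _ h1
    rw [← hc]
    exact Submodule.smul_mem _ c (Submodule.subset_span ⟨_, rfl⟩)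
  · rw [sc_zero α (mem_Irr.1 hχ) h h1]
    exact Submodule.zero_mem _

theorem li_bv (α : J ≃* J) : LinearIndependent ℂ (bv α) := by
  rw [Fintype.linearIndependent_iff]
  intro g hg ψ
  have h1 := congrArg (Ml (ee ψ.1.1)) hg
  rw [map_sum, map_zero] at h1
  have h2 : ∀ χ : Ia α, Ml (ee ψ.1.1) (g χ • bv α χ) = if χ = ψ then g ψ • bv α ψ else 0 := by
    intro χ
    rw [map_smul, bv_eig α χ (ee_Cf (mem_Irr.1 ψ.1.2)), om_ee (mem_Irr.1 χ.1.2) (mem_Irr.1 ψ.1.2)]
    by_cases h : χ = ψ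
    · rw [if_pos h, if_pos (by rw [h]), one_smul, h]
    · rw [if_neg h, if_neg (fun h' => h (Subtype.ext (Subtype.ext h'))), zero_smul, smul_zero]
  rw [Finset.sum_congr rfl fun χ _ => h2 χ, Finset.sum_ite_eq', if_pos (Finset.mem_univ _)] at h1
  exact (smul_eq_zero.1 h1).resolve_right (bv_ne α ψ)

/-- the twisted conjugacy -/
def tset (α : J ≃* J) : Setoid J where
  r x y := ∃ g, g * x * (α g)⁻¹ = y
  iseqv := {
    refl := fun x => ⟨1, by simp⟩
    symm := by
      rintro x y ⟨g, rfl⟩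
      refine ⟨g⁻¹, ?_⟩
      rw [map_inv]
      group
    trans := by
      rintro x y z ⟨g, rfl⟩ ⟨h, rfl⟩
      refine ⟨h * g, ?_⟩
      rw [map_mul]
      group }

/-- the twisted classes -/
def Qt (α : J ≃* J) : Type := Quotient (tset α)

instance (α : J ≃* J) : Fintype (Qt α) := by
  unfold Qt
  exact Fintype.ofFinite _

/-- the class of an element -/
def qm (α : J ≃* J) (x : J) : Qt α := Quotient.mk (tset α) x

/-- a representative -/
def qo (α : J ≃* J) (D : Qt α) : J := Quotient.out D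

theorem qm_qo (α : J ≃* J) (D : Qt α) : qm α (qo α D) = D := Quotient.out_eq D

theorem qm_eq {α : J ≃* J} (g x : J) : qm α (g * x * (α g)⁻¹) = qm α x :=
  Quotient.sound (s := tset α) ((tset α).symm ⟨g, rfl⟩)

theorem tv_qo {F : Type} [Field F] {α : J ≃* J} {v : J → F} (hv : v ∈ TV F α) (x : J) :
    v (qo α (qm α x)) = v x := by
  have h1 : qm α (qo α (qm α x)) = qm α x := qm_qo α _
  obtain ⟨g, hg⟩ : (tset α).r (qo α (qm α x)) x := Quotient.exact h1
  have h2 := hv g (qo α (qm α x))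
  rw [hg] at h2
  exact h2.symm

/-- twisted class functions and functions on the set of twisted classes -/
def eQ (F : Type) [Field F] (α : J ≃* J) : TV F α ≃ₗ[F] (Qt α → F) where
  toFun v := fun D => v.1 (qo α D)
  invFun u := ⟨fun x => u (qm α x), fun g x => by
    change u (qm α (g * x * (α g)⁻¹)) = u (qm α x)
    rw [qm_eq]⟩
  map_add' _ _ := rfl
  map_smul' _ _ := rfl
  left_inv v := by
    apply Subtype.ext
    funext x
    exact tv_qo v.2 x
  right_inv u := by
    funext D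
    change u (qm α (qo α D)) = u D
    rw [qm_qo]

/-- the matrices of the class sums -/
def Nt (α : J ≃* J) (E : ConjClasses J) : Matrix (Qt α) (Qt α) ℤ :=
  fun D D' => ∑ g : J, ind ℤ E g * (if qm α (g * qo α D) = D' then 1 else 0)

/-- the basis of common eigenvectors -/
def bb (α : J ≃* J) : Module.Basis (Ia α) ℂ (Qt α → ℂ) :=
  Module.Basis.mk (v := fun χ => eQ ℂ α ⟨bv α χ, (bv_mem α χ).1⟩)
    (by
      have h1 : LinearIndependent ℂ (fun χ : Ia α => (⟨bv α χ, (bv_mem α χ).1⟩ : TV ℂ α)) :=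
        LinearIndependent.of_comp (TV ℂ α).subtype (li_bv α)
      exact h1.map' (eQ ℂ α).toLinearMap (LinearEquiv.ker _))
    (by
      rintro u -
      have h1 : (((eQ ℂ α).symm u : TV ℂ α) : J → ℂ) ∈ Submodule.span ℂ (Set.range (bv α)) :=
        span_bv α ((eQ ℂ α).symm u).2
      obtain ⟨c, hc⟩ := (Submodule.mem_span_range_iff_exists_fun ℂ).1 h1
      have h2 : u = ∑ χ, c χ • eQ ℂ α ⟨bv α χ, (bv_mem α χ).1⟩ := by
        have h3 : (eQ ℂ α).symm u = ∑ χ, c χ • (⟨bv α χ, (bv_mem α χ).1⟩ : TV ℂ α) := by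
          apply Subtype.ext
          rw [← hc, Submodule.coe_sum]
          rfl
        have h4 := congrArg (eQ ℂ α) h3
        rw [LinearEquiv.apply_symm_apply, map_sum] at h4
        rw [h4]
        refine Finset.sum_congr rfl fun χ _ => ?_
        rw [map_smul]
      rw [h2]
      refine Submodule.sum_mem _ fun χ _ => ?_
      exact Submodule.smul_mem _ _ (Submodule.subset_span ⟨χ, rfl⟩))

theorem bb_apply (α : J ≃* J) (χ : Ia α) (D : Qt α) : bb α χ D = bv α χ (qo α D) := by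
  unfold bb
  rw [Module.Basis.mk_apply]
  rfl

/-- the integral central characters -/
def wt (α : J ≃* J) (χ : Ia α) (E : ConjClasses J) : integralClosure ℤ ℂ := wO χ.1 E

theorem nt_eig (α : J ≃* J) (E : ConjClasses J) (D : Qt α) (χ : Ia α) :
    ∑ D', ((Nt α E D D' : ℤ) : ℂ) * bv α χ (qo α D') = (wt α χ E : ℂ) * bv α χ (qo α D) := by
  have h1 := congrFun (bv_eig α χ (Cf_ind ℂ E)) (qo α D)
  rw [Pi.smul_apply, smul_eq_mul, Ml_apply] at h1
  change _ = om χ.1.1 (ind ℂ E) * _
  rw [← h1]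
  have h2 : ∀ D', ((Nt α E D D' : ℤ) : ℂ) * bv α χ (qo α D') = ∑ g : J,
      (if qm α (g * qo α D) = D' then ind ℂ E g * bv α χ (qo α D') else 0) := by
    intro D'
    unfold Nt
    push_cast
    rw [Finset.sum_mul]
    refine Finset.sum_congr rfl fun g _ => ?_
    rw [ind_int]
    by_cases h : qm α (g * qo α D) = D'
    · rw [if_pos h, if_pos h, mul_one]
    · rw [if_neg h, if_neg h, mul_zero, zero_mul]
  rw [Finset.sum_congr rfl fun D' _ => h2 D', Finset.sum_comm]
  refine Finset.sum_congr rfl fun g _ => ?_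
  rw [Finset.sum_ite_eq, if_pos (Finset.mem_univ _), tv_qo (bv_mem α χ).1]

variable {F : Type} [Field F] (red : integralClosure ℤ ℂ →+* F)

theorem tchar (α : J ≃* J) (f : J → F) :
    (MG (Nt α) (fun E : ConjClasses J => f E.out)).charpoly =
      ∏ χ : Ia α, (X - C (centralValue red χ.1.1 f)) := by
  rw [gen_red (Nt α) ((Pi.basisFun ℂ (Qt α)).toMatrix (bb α)) ((bb α).toMatrix (Pi.basisFun ℂ (Qt α)))
    (wt α) red (Module.Basis.toMatrix_mul_toMatrix_flip _ _)
    (Module.Basis.toMatrix_mul_toMatrix_flip _ _)]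
  · refine Finset.prod_congr rfl fun χ _ => ?_
    rw [centralValue_eq red (mem_Irr.1 χ.1.2)]
    congr 2
    refine Finset.sum_congr rfl fun E _ => ?_
    congr 1
    unfold R
    rw [ind_cast]
    exact (redC_of red (wt α χ E).2).symm
  · intro E D χ
    have e1 : ∀ D' : Qt α, (Pi.basisFun ℂ (Qt α)).toMatrix (bb α) D' χ = bv α χ (qo α D') := by
      intro D'
      rw [Module.Basis.toMatrix_apply, Pi.basisFun_repr, bb_apply]
    rw [Finset.sum_congr rfl fun D' _ => by rw [e1 D'], e1 D]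
    exact nt_eig α E D χ

theorem kop_tv {α : J ≃* J} {f : J → F} (hf : IsClassFun f) {v : J → F} (hv : v ∈ TV F α) :
    Kop f Set.univ v ∈ TV F α := by
  intro h x
  rw [kop_app, kop_app, if_pos (Set.mem_univ _), if_pos (Set.mem_univ _),
    ← finsum_comp_equiv (MulAut.conj h).toEquiv]
  refine finsum_congr fun g => ?_
  change f (h * g * h⁻¹) * v (h * g * h⁻¹ * (h * x * (α h)⁻¹)) = _
  have h1 : h * g * h⁻¹ * (h * x * (α h)⁻¹) = h * (g * x) * (α h)⁻¹ := by group
  rw [hf h, h1, hv h]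

theorem tk_eq (α : J ≃* J) (f : J → F) (hf : IsClassFun f) (c : F) :
    Module.finrank F ↥(TV F α ⊓ (Kop f Set.univ).maxGenEigenspace c) =
      (MG (Nt α) (fun E : ConjClasses J => f E.out)).charpoly.rootMultiplicity c := by
  set V := TV F α with hV
  let T : Module.End F V := (Kop f Set.univ).restrict (fun v hv => kop_tv hf hv)
  have h1 : Module.finrank F ↥(V ⊓ (Kop f Set.univ).maxGenEigenspace c) =
      Module.finrank F (T.maxGenEigenspace c) := by
    have h2 : T.maxGenEigenspace c =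
        Submodule.comap V.subtype ((Kop f Set.univ).maxGenEigenspace c) :=
      Module.End.genEigenspace_restrict _ _ _ _ _
    rw [h2, ← Submodule.finrank_map_subtype_eq, Submodule.map_comap_subtype]
  rw [h1, LinearMap.finrank_maxGenEigenspace_eq]
  congr 1
  let b : Module.Basis (Qt α) F V := (Pi.basisFun F (Qt α)).map (eQ F α).symm
  rw [← LinearMap.charpoly_toMatrix T b]
  congr 1
  ext D D'
  rw [LinearMap.toMatrix_apply]
  have e1 : b.repr (T (b D')) D = eQ F α (T ((eQ F α).symm (Pi.single D' 1))) D := by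
    simp only [b, Module.Basis.map_apply, Module.Basis.map_repr, LinearEquiv.symm_symm,
      LinearEquiv.trans_apply, Pi.basisFun_apply, Pi.basisFun_repr]
  have e0 : eQ F α (T ((eQ F α).symm (Pi.single D' 1))) D =
      Kop f Set.univ ((eQ F α).symm (Pi.single D' 1)).1 (qo α D) := rfl
  rw [e1, e0, kop_app, if_pos (Set.mem_univ _), finsum_eq_sum_of_fintype]
  change ∑ g : J, f g * (Pi.single D' 1 : Qt α → F) (qm α (g * qo α D)) = _
  unfold MG Nt
  have e2 : ∀ E : ConjClasses J, f E.out *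
      (((∑ g : J, ind ℤ E g * (if qm α (g * qo α D) = D' then 1 else 0) : ℤ)) : F) =
      ∑ g : J, (f E.out * ind F E g) * (if qm α (g * qo α D) = D' then 1 else 0) := by
    intro E
    push_cast
    rw [Finset.mul_sum]
    refine Finset.sum_congr rfl fun g _ => ?_
    rw [ind_int]
    ring
  rw [Finset.sum_congr rfl fun E _ => e2 E, Finset.sum_comm]
  refine Finset.sum_congr rfl fun g _ => ?_
  rw [← Finset.sum_mul, ← Cf_expand (f := f) (fun g x => hf g x) g]
  congr 1
  rw [Pi.single_apply]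

theorem tdim (α : J ≃* J) (f : J → F) (hf : IsClassFun f) (c : F) :
    Nat.card {χ : J → ℂ // IsIrreducibleCharacter χ ∧ (∀ x, χ (α x) = χ x) ∧
      centralValue red χ f = c} =
    Module.finrank F ↥(TV F α ⊓ (Kop f Set.univ).maxGenEigenspace c) := by
  rw [tk_eq α f hf c, tchar red α f, ← Polynomial.count_roots]
  have h1 : (∏ χ : Ia α, (X - C (centralValue red χ.1.1 f))).roots =
      (Finset.univ : Finset (Ia α)).val.map (fun χ => centralValue red χ.1.1 f) := by
    have h2 := Polynomial.roots_multiset_prod_X_sub_C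
      ((Finset.univ : Finset (Ia α)).val.map (fun χ => centralValue red χ.1.1 f))
    rw [Multiset.map_map] at h2
    exact h2
  rw [h1, Multiset.count_map]
  rw [← Finset.filter_val, Finset.card_val, ← Fintype.card_subtype, ← Nat.card_eq_fintype_card]
  refine Nat.card_congr
    { toFun := fun χ => ⟨⟨⟨χ.1, mem_Irr.2 χ.2.1⟩, χ.2.2.1⟩, χ.2.2.2.symm⟩
      invFun := fun χ => ⟨χ.1.1.1, mem_Irr.1 χ.1.1.2, χ.1.2, χ.2.symm⟩
      left_inv := fun χ => rfl
      right_inv := fun χ => rfl }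

end cx

end Pool.Agent.R674.Tw
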