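import Pool.Agent.R674.Tw.Gen
import Pool.Agent.R674.KB.Dz

/-!
# Twisted class functions and invariant irreducible characters
-/

set_option autoImplicit false

open scoped Classical

noncomputable section

namespace Pool.Agent.R674.Tw

open Pool.Agent.Y63.NV
open Pool.Agent.Y930.NV
open Pool.Agent.R674.KB
open Pool.Agent.Y63.AWC (IsIrreducibleCharacter)
open Pool.Agent.Helper884.IC (Irr mem_Irr B IsClass B_irr cardG_ne)

section cx

variable {J : Type} [Group J] [Fintype J]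

/-- the twisted class functions -/
def TV (F : Type) [Field F] (α : J ≃* J) : Submodule F (J → F) where
  carrier := {v | ∀ g x, v (g * x * (α g)⁻¹) = v x}
  zero_mem' := fun _ _ => rfl
  add_mem' := fun {a b} ha hb g x => by
    rw [Pi.add_apply, Pi.add_apply, ha g x, hb g x]
  smul_mem' := fun c {a} ha g x => by
    rw [Pi.smul_apply, Pi.smul_apply, ha g x]

/-- the idempotent of a character -/
def ee (χ : J → ℂ) (n : J) : ℂ := χ 1 / (Nat.card J : ℂ) * χ n⁻¹

/-- multiplication with a function -/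
def Ml (f : J → ℂ) : Module.End ℂ (J → ℂ) where
  toFun v := fun x => ∑ n, f n * v (n * x)
  map_add' a b := by
    funext x
    simp only [Pi.add_apply, mul_add, Finset.sum_add_distrib]
  map_smul' c a := by
    funext x
    simp only [Pi.smul_apply, smul_eq_mul, RingHom.id_apply, Finset.mul_sum]
    exact Finset.sum_congr rfl fun n _ => by ring

theorem Ml_apply (f v : J → ℂ) (x : J) : Ml f v x = ∑ n, f n * v (n * x) := rfl

/-- the average -/
def Av (α : J ≃* J) : Module.End ℂ (J → ℂ) where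
  toFun v := fun x => (Nat.card J : ℂ)⁻¹ * ∑ g, v (g * x * (α g)⁻¹)
  map_add' a b := by
    funext x
    simp only [Pi.add_apply, mul_add, Finset.sum_add_distrib]
  map_smul' c a := by
    funext x
    simp only [Pi.smul_apply, smul_eq_mul, RingHom.id_apply, Finset.mul_sum]
    exact Finset.sum_congr rfl fun n _ => by ring

theorem Av_apply (α : J ≃* J) (v : J → ℂ) (x : J) :
    Av α v x = (Nat.card J : ℂ)⁻¹ * ∑ g, v (g * x * (α g)⁻¹) := rfl

theorem irr_one_ne' {χ : J → ℂ} (h : IsIrreducibleCharacter χ) : χ 1 ≠ 0 := irr_one_ne h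

theorem ee_Cf {χ : J → ℂ} (h : IsIrreducibleCharacter χ) : Cf (ee χ) := by
  intro g x
  unfold ee
  have e : (g * x * g⁻¹)⁻¹ = g * x⁻¹ * g⁻¹ := by group
  rw [e, irr_Cf h]

theorem Av_mem (α : J ≃* J) (v : J → ℂ) : Av α v ∈ TV ℂ α := by
  intro g x
  rw [Av_apply, Av_apply]
  congr 1
  refine Fintype.sum_equiv (Equiv.mulRight g) _ _ fun k => ?_
  rw [Equiv.coe_mulRight]
  congr 1
  rw [map_mul]
  group

theorem Av_of_mem {α : J ≃* J} {v : J → ℂ} (h : v ∈ TV ℂ α) : Av α v = v := by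
  funext x
  rw [Av_apply]
  have h1 : ∀ g : J, v (g * x * (α g)⁻¹) = v x := fun g => h g x
  rw [Finset.sum_congr rfl fun g _ => h1 g, Finset.sum_const, Finset.card_univ, nsmul_eq_mul,
    ← mul_assoc, ← Nat.card_eq_fintype_card, inv_mul_cancel₀ cardG_ne, one_mul]

theorem Ml_mem {α : J ≃* J} {f v : J → ℂ} (hf : Cf f) (h : v ∈ TV ℂ α) : Ml f v ∈ TV ℂ α := by
  intro g x
  rw [Ml_apply, Ml_apply]
  symm
  refine Fintype.sum_equiv (MulAut.conj g).toEquiv _ _ fun n => ?_
  have e1 : (MulAut.conj g).toEquiv n = g * n * g⁻¹ := rfl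
  rw [e1, hf g n]
  congr 1
  have e2 : g * n * g⁻¹ * (g * x * (α g)⁻¹) = g * (n * x) * (α g)⁻¹ := by group
  rw [e2, h g (n * x)]

/-- multiplication with a class function on the component of `χ` -/
theorem Ml_Ml {χ : J → ℂ} (h : IsIrreducibleCharacter χ) {f : J → ℂ} (hf : Cf f) (v : J → ℂ) :
    Ml f (Ml (ee χ) v) = om χ f • Ml (ee χ) v := by
  funext x
  rw [Pi.smul_apply, smul_eq_mul, Ml_apply, Ml_apply, Finset.mul_sum]
  have h1 : ∀ g : J, f g * Ml (ee χ) v (g * x) =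
      ∑ m : J, (f g * ee χ (m * g⁻¹)) * v (m * x) := by
    intro g
    rw [Ml_apply, Finset.mul_sum]
    refine Fintype.sum_equiv (Equiv.mulRight g) _ _ fun n => ?_
    rw [Equiv.coe_mulRight, mul_inv_cancel_right, mul_assoc n g x]
    ring
  rw [Finset.sum_congr rfl fun g _ => h1 g, Finset.sum_comm]
  refine Finset.sum_congr rfl fun m _ => ?_
  rw [← Finset.sum_mul, ← mul_assoc]
  congr 1
  have h2 : ∀ g : J, f g * ee χ (m * g⁻¹) = χ 1 / (Nat.card J : ℂ) * (f g * χ (g * m⁻¹)) := by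
    intro g
    unfold ee
    have e : (m * g⁻¹)⁻¹ = g * m⁻¹ := by group
    rw [e]
    ring
  rw [Finset.sum_congr rfl fun g _ => h2 g, ← Finset.mul_sum, om_shift h hf]
  unfold ee
  ring

theorem om_ee {ψ χ : J → ℂ} (hψ : IsIrreducibleCharacter ψ) (hχ : IsIrreducibleCharacter χ) :
    om ψ (ee χ) = if ψ = χ then 1 else 0 := by
  have h1 := B_irr hψ hχ
  unfold B at h1
  have h3 : om ψ (ee χ) = χ 1 / ψ 1 * ((Nat.card J : ℂ)⁻¹ * ∑ g : J, ψ g * χ g⁻¹) := by
    unfold om ee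
    rw [Finset.mul_sum, Finset.mul_sum, Finset.sum_div]
    refine Finset.sum_congr rfl fun g _ => ?_
    field_simp
  rw [h3, h1]
  by_cases h : ψ = χ
  · simp only [if_pos h]
    rw [h, div_self (irr_one_ne' hχ), mul_one]
  · simp only [if_neg h]
    rw [mul_zero]

/-- the idempotents add up to one -/
theorem sum_ee (n : J) : ∑ χ ∈ Irr J, ee χ n = if n = 1 then 1 else 0 := by
  have hc : IsClass (fun g : J => if g = 1 then (1 : ℂ) else 0) := by
    intro g y
    have : y * g * y⁻¹ = 1 ↔ g = 1 := by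
      rw [mul_inv_eq_one, mul_eq_left]
    simp only [this]
  have h1 := congrFun (Pool.Agent.Helper884.IC.expand _ hc) n⁻¹
  rw [Finset.sum_apply] at h1
  have h2 : ∀ χ : J → ℂ, B (fun g : J => if g = 1 then (1 : ℂ) else 0) χ = (Nat.card J : ℂ)⁻¹ * χ 1 := by
    intro χ
    unfold B
    congr 1
    rw [Finset.sum_eq_single 1]
    · simp
    · intro b _ hb
      simp [hb]
    · intro h
      exact absurd (Finset.mem_univ _) h
  have h3 : (if n⁻¹ = 1 then (1 : ℂ) else 0) = if n = 1 then 1 else 0 := by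
    simp only [inv_eq_one]
  rw [h3] at h1
  rw [h1]
  refine Finset.sum_congr rfl fun χ _ => ?_
  rw [Pi.smul_apply, smul_eq_mul, h2]
  unfold ee
  ring

theorem sum_Ml (v : J → ℂ) : ∑ χ ∈ Irr J, Ml (ee χ) v = v := by
  funext x
  rw [Finset.sum_apply]
  have h1 : ∀ χ ∈ Irr J, Ml (ee χ) v x = ∑ n : J, ee χ n * v (n * x) := fun χ _ => rfl
  rw [Finset.sum_congr rfl h1, Finset.sum_comm]
  have h2 : ∀ n : J, ∑ χ ∈ Irr J, ee χ n * v (n * x) = (if n = 1 then 1 else 0) * v (n * x) := by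
    intro n
    rw [← Finset.sum_mul, sum_ee]
  rw [Finset.sum_congr rfl fun n _ => h2 n, Finset.sum_eq_single 1]
  · simp
  · intro b _ hb
    simp [hb]
  · intro h
    exact absurd (Finset.mem_univ _) h

/-- `∑ χ(x a x⁻¹ g) = |J| χ(a) χ(g) / χ(1)` -/
theorem sum_conj {χ : J → ℂ} (h : IsIrreducibleCharacter χ) (a g : J) :
    ∑ x : J, χ (x * a * x⁻¹ * g) = (Nat.card J : ℂ) / χ 1 * χ a * χ g := by
  let f : J → ℂ := fun y => ∑ x : J, if x * a * x⁻¹ = y then 1 else 0
  have hf : Cf f := by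
    intro k y
    change ∑ x : J, (if x * a * x⁻¹ = k * y * k⁻¹ then (1 : ℂ) else 0) =
      ∑ x : J, if x * a * x⁻¹ = y then 1 else 0
    symm
    refine Fintype.sum_equiv (Equiv.mulLeft k) _ _ fun x => ?_
    rw [Equiv.coe_mulLeft]
    have : x * a * x⁻¹ = y ↔ k * x * a * (k * x)⁻¹ = k * y * k⁻¹ := by
      have e : k * x * a * (k * x)⁻¹ = k * (x * a * x⁻¹) * k⁻¹ := by group
      rw [e]
      constructor
      · intro h
        rw [h]
      · intro h
        exact mul_left_cancel (mul_right_cancel h)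
    simp only [this]
  have hs : ∀ u : J → ℂ, ∑ y : J, f y * u y = ∑ x : J, u (x * a * x⁻¹) := by
    intro u
    have h1 : ∀ y : J, f y * u y = ∑ x : J, (if x * a * x⁻¹ = y then u y else 0) := by
      intro y
      change (∑ x : J, if x * a * x⁻¹ = y then (1 : ℂ) else 0) * u y = _
      rw [Finset.sum_mul]
      refine Finset.sum_congr rfl fun x _ => ?_
      rw [ite_mul, one_mul, zero_mul]
    rw [Finset.sum_congr rfl fun y _ => h1 y, Finset.sum_comm]
    refine Finset.sum_congr rfl fun x _ => ?_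
    rw [Finset.sum_ite_eq]
    simp
  have h1 := om_shift h hf g
  rw [hs (fun y => χ (y * g))] at h1
  rw [h1]
  unfold om
  rw [hs χ]
  have h2 : ∀ x : J, χ (x * a * x⁻¹) = χ a := fun x => irr_Cf h x a
  rw [Finset.sum_congr rfl fun x _ => h2 x, Finset.sum_const, Finset.card_univ, nsmul_eq_mul,
    ← Nat.card_eq_fintype_card]
  ring

/-- the trace of an operator on functions -/
theorem trace_fun (T : Module.End ℂ (J → ℂ)) :
    LinearMap.trace ℂ (J → ℂ) T = ∑ x : J, T (Pi.single x 1) x := by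
  rw [LinearMap.trace_eq_matrix_trace ℂ (Pi.basisFun ℂ J)]
  unfold Matrix.trace
  refine Finset.sum_congr rfl fun x _ => ?_
  rw [Matrix.diag_apply, LinearMap.toMatrix_apply, Pi.basisFun_apply, Pi.basisFun_repr]

/-- the projection to the component of `χ` -/
def Tc (α : J ≃* J) (χ : J → ℂ) : Module.End ℂ (J → ℂ) := Ml (ee χ) * Av α

/-- the component of `χ` -/
def Sc (α : J ≃* J) (χ : J → ℂ) : Submodule ℂ (J → ℂ) where
  carrier := {v | v ∈ TV ℂ α ∧ Ml (ee χ) v = v}
  zero_mem' := ⟨Submodule.zero_mem _, map_zero _⟩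
  add_mem' := fun ha hb => ⟨Submodule.add_mem _ ha.1 hb.1, by rw [map_add, ha.2, hb.2]⟩
  smul_mem' := fun c _ ha => ⟨Submodule.smul_mem _ c ha.1, by rw [map_smul, ha.2]⟩

theorem mem_Sc {α : J ≃* J} {χ v : J → ℂ} : v ∈ Sc α χ ↔ v ∈ TV ℂ α ∧ Ml (ee χ) v = v := Iff.rfl

theorem Ml_Sc {α : J ≃* J} {χ v : J → ℂ} (hχ : IsIrreducibleCharacter χ) (hv : v ∈ TV ℂ α) :
    Ml (ee χ) v ∈ Sc α χ := by
  refine ⟨Ml_mem (ee_Cf hχ) hv, ?_⟩
  rw [Ml_Ml hχ (ee_Cf hχ), om_ee hχ hχ, if_pos rfl, one_smul]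

theorem Tc_proj {α : J ≃* J} {χ : J → ℂ} (hχ : IsIrreducibleCharacter χ) :
    LinearMap.IsProj (Sc α χ) (Tc α χ) := by
  constructor
  · intro v
    exact Ml_Sc hχ (Av_mem α v)
  · intro v hv
    change Ml (ee χ) (Av α v) = v
    rw [Av_of_mem hv.1, hv.2]

theorem trace_Tc {α : J ≃* J} {χ : J → ℂ} (hχ : IsIrreducibleCharacter χ) :
    LinearMap.trace ℂ (J → ℂ) (Tc α χ) = B χ (fun x => χ (α x)) := by
  rw [trace_fun]
  have h1 : ∀ x : J, Tc α χ (Pi.single x 1) x =
      (Nat.card J : ℂ)⁻¹ * ∑ g : J, ee χ (g⁻¹ * x * α g * x⁻¹) := by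
    intro x
    change ∑ n, ee χ n * ((Nat.card J : ℂ)⁻¹ *
      ∑ g, (Pi.single x (1 : ℂ) : J → ℂ) (g * (n * x) * (α g)⁻¹)) = _
    have h2 : ∀ n : J, ee χ n * ((Nat.card J : ℂ)⁻¹ *
        ∑ g, (Pi.single x (1 : ℂ) : J → ℂ) (g * (n * x) * (α g)⁻¹)) = ∑ g : J,
          (Nat.card J : ℂ)⁻¹ * (if g⁻¹ * x * α g * x⁻¹ = n then ee χ n else 0) := by
      intro n
      rw [Finset.mul_sum, Finset.mul_sum]
      refine Finset.sum_congr rfl fun g _ => ?_
      rw [Pi.single_apply]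
      have : g * (n * x) * (α g)⁻¹ = x ↔ g⁻¹ * x * α g * x⁻¹ = n := by
        constructor
        · intro h
          rw [mul_inv_eq_iff_eq_mul] at h
          calc g⁻¹ * x * α g * x⁻¹ = g⁻¹ * (x * α g) * x⁻¹ := by group
            _ = g⁻¹ * (g * (n * x)) * x⁻¹ := by rw [h]
            _ = n := by group
        · rintro rfl
          group
      by_cases h : g⁻¹ * x * α g * x⁻¹ = n
      · rw [if_pos h, if_pos (this.2 h)]
        ring
      · rw [if_neg h, if_neg (fun h' => h (this.1 h'))]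
        ring
    rw [Finset.sum_congr rfl fun n _ => h2 n, Finset.sum_comm, Finset.mul_sum]
    refine Finset.sum_congr rfl fun g _ => ?_
    rw [← Finset.mul_sum, Finset.sum_ite_eq]
    simp
  rw [Finset.sum_congr rfl fun x _ => h1 x, ← Finset.mul_sum, Finset.sum_comm]
  unfold B
  congr 1
  refine Finset.sum_congr rfl fun g _ => ?_
  have h2 : ∀ x : J, ee χ (g⁻¹ * x * α g * x⁻¹) =
      χ 1 / (Nat.card J : ℂ) * χ (x * (α g)⁻¹ * x⁻¹ * g) := by
    intro x
    unfold ee
    congr 2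
    group
  rw [Finset.sum_congr rfl fun x _ => h2 x, ← Finset.mul_sum, sum_conj hχ]
  change _ = χ g * χ (α g⁻¹)
  rw [map_inv]
  have h3 := irr_one_ne' hχ
  have h4 := cardG_ne (G := J)
  field_simp

end cx

end Pool.Agent.R674.Tw
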