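import Pool.Agent.Y63.NV.Stm5
import Pool.Agent.Y63.KR.Basic

/-!
# Chains of `p`-subgroups of a normal subgroup: definitions
-/

set_option autoImplicit false

open scoped Classical

noncomputable section

namespace Pool.Agent.R674.Tw

open Pool.Agent.Y63.NV
open Pool.Agent.Y63.AWC (IsIrreducibleCharacter)
open Pool.Agent.Y63.KR (IsPChain chainStabilizer conjSub conjSub_one conjSub_mul)

section defs

variable {E : Type} [Group E]

/-- Conjugation with `h` maps the function `χ` on the subgroup `N` to itself: `χ(h n h⁻¹) = χ(n)`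
for all `n ∈ N` with `h n h⁻¹ ∈ N`. -/
def Fixes {N : Subgroup E} (h : E) (χ : N → ℂ) : Prop :=
  ∀ n n' : N, (n' : E) = h * n * h⁻¹ → χ n' = χ n

/-- The chains `C` of nontrivial `p`-subgroups of `G` (given as the sets of their members; the empty
chain is allowed). -/
abbrev GCh (p : ℕ) (G : Subgroup E) : Type :=
  {σ : Set (Subgroup E) // IsPChain p σ ∧ ∀ P ∈ σ, P ≤ G}

/-- Conjugacy of chains under `G`. -/
def gchSetoid (p : ℕ) (G : Subgroup E) : Setoid (GCh p G) where
  r σ τ := ∃ g ∈ G, τ.1 = conjSub g '' σ.1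
  iseqv := {
    refl := fun σ => ⟨1, G.one_mem, by
      have : (conjSub (1 : E)) = id := funext conjSub_one
      rw [this, Set.image_id]⟩
    symm := by
      rintro σ τ ⟨g, hg, h⟩
      refine ⟨g⁻¹, G.inv_mem hg, ?_⟩
      rw [h, ← Set.image_comp]
      have : conjSub g⁻¹ ∘ conjSub g = id := funext fun P => by
        rw [Function.comp_apply, ← conjSub_mul, inv_mul_cancel, conjSub_one, id]
      rw [this, Set.image_id]
    trans := by
      rintro σ τ υ ⟨g, hg, h⟩ ⟨k, hk, h'⟩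
      refine ⟨k * g, G.mul_mem hk hg, ?_⟩
      rw [h', h, ← Set.image_comp]
      congr 1
      exact (funext fun P => conjSub_mul k g P).symm }

/-- The alternating sum `∑_C (-1)^|C| f(C)` over representatives `C` of the `G`-conjugacy classes of
chains of nontrivial `p`-subgroups of `G`, the empty chain included. -/
def invSum (p : ℕ) (G : Subgroup E) (f : Set (Subgroup E) → ℤ) : ℤ :=
  ∑ᶠ c : Quotient (gchSetoid p G), (-1) ^ c.out.1.ncard * f c.out.1

/-- The normaliser `N_G(C)`. -/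
def NG (G : Subgroup E) (σ : Set (Subgroup E)) : Subgroup E := G ⊓ chainStabilizer σ

theorem ng_le (G : Subgroup E) (σ : Set (Subgroup E)) : NG G σ ≤ G := inf_le_left

theorem ng_conj (G : Subgroup E) [G.Normal] {σ : Set (Subgroup E)} {h : E}
    (hh : h ∈ chainStabilizer σ) {n : E} (hn : n ∈ NG G σ) : h * n * h⁻¹ ∈ NG G σ := by
  obtain ⟨h1, h2⟩ := Subgroup.mem_inf.1 hn
  refine Subgroup.mem_inf.2 ⟨Subgroup.Normal.conj_mem inferInstance n h1 h, ?_⟩
  exact Subgroup.mul_mem _ (Subgroup.mul_mem _ hh h2) (Subgroup.inv_mem _ hh)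

/-- The subgroup `N_E(C, ψ)` of the elements of `E` which fix `C` and `ψ`. -/
def NE (G : Subgroup E) [G.Normal] (σ : Set (Subgroup E)) (χ : NG G σ → ℂ) : Subgroup E where
  carrier := {e | e ∈ chainStabilizer σ ∧ Fixes e χ}
  one_mem' := by
    refine ⟨Subgroup.one_mem _, fun n n' h => ?_⟩
    congr 1
    apply Subtype.ext
    rw [h]
    group
  mul_mem' := by
    rintro a b ⟨ha, ha'⟩ ⟨hb, hb'⟩
    refine ⟨Subgroup.mul_mem _ ha hb, fun n n' h => ?_⟩
    rw [← hb' n ⟨b * n * b⁻¹, ng_conj G hb n.2⟩ rfl]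
    refine ha' _ _ ?_
    rw [h]
    group
  inv_mem' := by
    rintro a ⟨ha, ha'⟩
    refine ⟨Subgroup.inv_mem _ ha, fun n n' h => ?_⟩
    refine (ha' n' n ?_).symm
    rw [h]
    group

/-- The image `N_Ē(C, ψ)` of `N_E(C, ψ)` in `Ē = E/G`. -/
def NEbar (G : Subgroup E) [G.Normal] (σ : Set (Subgroup E)) (χ : NG G σ → ℂ) :
    Subgroup (E ⧸ G) := (NE G σ χ).map (QuotientGroup.mk' G)

variable {F : Type} [Field F]

/-- `b(ψ)^G = B`, for an irreducible character `ψ` of `N_G(C)`: the central character of the block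
`B` of `G` is that of `b(ψ)` after the restriction of functions from `G` to `N_G(C)`. -/
def IndB (red : integralClosure ℤ ℂ →+* F) (G : Subgroup E) (σ : Set (Subgroup E))
    (χ : NG G σ → ℂ) (B : (G → F) → F) : Prop :=
  ∀ f : G → F, IsClassFun f → centralValue red χ (fun x => f ⟨x, ng_le G σ x.2⟩) = B f

/-- The number of `ψ ∈ Irr(N_G(C))` with `b(ψ)^G = B` and `N_Ē(C, ψ) = U`. -/
def kU (red : integralClosure ℤ ℂ →+* F) (G : Subgroup E) [G.Normal] (B : (G → F) → F)
    (U : Subgroup (E ⧸ G)) (σ : Set (Subgroup E)) : ℕ :=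
  Nat.card {χ : NG G σ → ℂ // IsIrreducibleCharacter χ ∧ NEbar G σ χ = U ∧ IndB red G σ χ B}

/-- The number of `ψ ∈ Irr(N_G(C))` with `b(ψ)^G = B` and `N_Ē(C, ψ) ≥ U`. -/
def kGe (red : integralClosure ℤ ℂ →+* F) (G : Subgroup E) [G.Normal] (B : (G → F) → F)
    (U : Subgroup (E ⧸ G)) (σ : Set (Subgroup E)) : ℕ :=
  Nat.card {χ : NG G σ → ℂ // IsIrreducibleCharacter χ ∧ U ≤ NEbar G σ χ ∧ IndB red G σ χ B}

end defs

end Pool.Agent.R674.Tw
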