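import Pool.Agent.R674.Tw.Blocks

/-!
# The alternating sums for inertial groups
-/

set_option autoImplicit false

open scoped Classical BigOperators

noncomputable section

namespace Pool.Agent.R674.Tw

open Pool.Agent.Y63.NV
open Pool.Agent.Y63.KR
open Pool.Agent.Y63.AWC (IsIrreducibleCharacter irr_comp)
open Pool.Agent.Y171.NV (card_fib irr_fin)

section

variable {F : Type} [Field F] {E : Type} [Group E] [Finite E]

theorem conj_le {G P : Subgroup E} {g : E} (hg : g ∈ G) (hP : P ≤ G) : conjSub g P ≤ G := by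
  intro x hx
  rw [mem_conjSub] at hx
  have h1 := G.mul_mem (G.mul_mem hg (hP hx)) (G.inv_mem hg)
  have e : g * (g⁻¹ * x * g) * g⁻¹ = x := by group
  rwa [e] at h1

/-- the sum over the classes of chains as a weighted sum over all chains -/
theorem card_mul_inv {p : ℕ} (G : Subgroup E) (f : Set (Subgroup E) → ℤ)
    (hf : ∀ g ∈ G, ∀ σ, f (conjSub g '' σ) = f σ) [Fintype (GCh p G)] :
    (Nat.card G : ℤ) * invSum p G f =
      ∑ σ : GCh p G, (-1) ^ σ.1.ncard * ((Nat.card (NG G σ.1) : ℤ) * f σ.1) := by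
  letI : MulAction G (GCh p G) :=
    { smul := fun g σ => ⟨conjSub (g : E) '' σ.1, σ.2.1.conj _, by
        rintro _ ⟨P, hP, rfl⟩
        exact conj_le g.2 (σ.2.2 P hP)⟩
      one_smul := fun σ => by
        apply Subtype.ext
        change conjSub (1 : E) '' σ.1 = σ.1
        have : (conjSub (1 : E)) = id := funext conjSub_one
        rw [this, Set.image_id]
      mul_smul := fun g h σ => by
        apply Subtype.ext
        change conjSub ((g : E) * h) '' σ.1 = conjSub (g : E) '' (conjSub (h : E) '' σ.1)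
        rw [← Set.image_comp]
        congr 1
        exact funext fun P => conjSub_mul _ _ P }
  have hsm : ∀ (g : G) (σ : GCh p G), (g • σ).1 = conjSub (g : E) '' σ.1 := fun _ _ => rfl
  have h := orbit_sum (G := G) (gchSetoid p G) (by
    intro σ τ
    change (∃ g ∈ G, τ.1 = conjSub g '' σ.1) ↔ _
    constructor
    · rintro ⟨g, hg, h⟩
      exact ⟨⟨g, hg⟩, Subtype.ext (by rw [hsm, h])⟩
    · rintro ⟨g, hg⟩
      exact ⟨g, g.2, by rw [← hg, hsm]⟩)
    (fun σ => (-1) ^ σ.1.ncard * f σ.1) (by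
      rintro σ τ ⟨g, hg, h⟩
      change (-1) ^ σ.1.ncard * f σ.1 = (-1) ^ τ.1.ncard * f τ.1
      rw [h, ncard_conj, hf g hg])
  unfold invSum
  rw [h]
  refine Finset.sum_congr rfl fun σ _ => ?_
  have hst : Nat.card (MulAction.stabilizer G σ) = Nat.card (NG G σ.1) := by
    have key : ∀ g : G, g ∈ MulAction.stabilizer G σ ↔ (g : E) ∈ chainStabilizer σ.1 := by
      intro g
      rw [MulAction.mem_stabilizer_iff, Subtype.ext_iff, hsm, mem_chainStabilizer]
      constructor
      · intro h3 P hP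
        have hgP : conjSub (g : E) P ∈ σ.1 := by
          rw [← h3]
          exact ⟨P, hP, rfl⟩
        have hcard : Nat.card (conjSub (g : E) P) = Nat.card P :=
          Nat.card_congr
            (Subgroup.equivMapOfInjective _ _ (MulAut.conj (g : E)).injective).toEquiv.symm
        rcases σ.2.1.chain.total hgP hP with h4 | h4
        · exact Subgroup.eq_of_le_of_card_ge h4 hcard.ge
        · exact (Subgroup.eq_of_le_of_card_ge h4 hcard.le).symm
      · intro h3
        ext P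
        constructor
        · rintro ⟨Q, hQ, rfl⟩
          rw [h3 Q hQ]
          exact hQ
        · intro hP
          exact ⟨P, hP, h3 P hP⟩
    exact Nat.card_congr
      { toFun := fun g => ⟨g.1.1, Subgroup.mem_inf.2 ⟨g.1.2, (key g.1).1 g.2⟩⟩
        invFun := fun g => ⟨⟨g.1, (Subgroup.mem_inf.1 g.2).1⟩,
          (key ⟨g.1, (Subgroup.mem_inf.1 g.2).1⟩).2 (Subgroup.mem_inf.1 g.2).2⟩
        left_inv := fun g => rfl
        right_inv := fun g => rfl }
  rw [hst]
  ring

theorem invSum_eq_zero {p : ℕ} (G : Subgroup E) (f : Set (Subgroup E) → ℤ)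
    (hf : ∀ g ∈ G, ∀ σ, f (conjSub g '' σ) = f σ) [Fintype (GCh p G)] :
    invSum p G f = 0 ↔
      ∑ σ : GCh p G, (-1) ^ σ.1.ncard * ((Nat.card (NG G σ.1) : ℤ) * f σ.1) = 0 := by
  rw [← card_mul_inv G f hf]
  have hpos : (Nat.card G : ℤ) ≠ 0 := by exact_mod_cast Nat.card_pos.ne'
  constructor
  · intro h
    rw [h, mul_zero]
  · intro h
    exact (mul_eq_zero.1 h).resolve_left hpos

/-- the counts by inertial groups -/
theorem kGe_eq (red : integralClosure ℤ ℂ →+* F) (G : Subgroup E) [G.Normal]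
    (B : (G → F) → F) (V : Subgroup (E ⧸ G)) (σ : Set (Subgroup E))
    [Fintype (Subgroup (E ⧸ G))] :
    kGe red G B V σ = ∑ W : Subgroup (E ⧸ G), if V ≤ W then kU red G B W σ else 0 := by
  have hX := irr_fin (NG G σ)
  have hX' : Finite {χ : NG G σ → ℂ // IsIrreducibleCharacter χ ∧ IndB red G σ χ B} :=
    Finite.of_injective (fun χ : {χ : NG G σ → ℂ // IsIrreducibleCharacter χ ∧ IndB red G σ χ B} =>
      (⟨χ.1, χ.2.1⟩ : {χ : NG G σ → ℂ // IsIrreducibleCharacter χ}))
      (fun a b h => Subtype.ext (congrArg (fun t => t.1) h))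
  have h1 := card_fib (fun χ : {χ : NG G σ → ℂ // IsIrreducibleCharacter χ ∧ IndB red G σ χ B} =>
    NEbar G σ χ.1) Finset.univ (fun χ => Finset.mem_univ _) (fun W => V ≤ W)
  have h2 : kGe red G B V σ =
      Nat.card {χ : {χ : NG G σ → ℂ // IsIrreducibleCharacter χ ∧ IndB red G σ χ B} //
        V ≤ NEbar G σ χ.1} := by
    unfold kGe
    exact Nat.card_congr
      { toFun := fun χ => ⟨⟨χ.1, χ.2.1, χ.2.2.2⟩, χ.2.2.1⟩
        invFun := fun χ => ⟨χ.1.1, χ.1.2.1, χ.2, χ.1.2.2⟩
        left_inv := fun χ => rfl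
        right_inv := fun χ => rfl }
  rw [h2, h1]
  refine Finset.sum_congr rfl fun W _ => ?_
  by_cases h : V ≤ W
  · rw [if_pos h, if_pos h]
    unfold kU
    exact Nat.card_congr
      { toFun := fun χ => ⟨χ.1.1, χ.1.2.1, χ.2, χ.1.2.2⟩
        invFun := fun χ => ⟨⟨χ.1, χ.2.1, χ.2.2.2⟩, χ.2.2.1⟩
        left_inv := fun χ => rfl
        right_inv := fun χ => rfl }
  · rw [if_neg h, if_neg h]

theorem kGe_conj (red : integralClosure ℤ ℂ →+* F) (G : Subgroup E) [G.Normal]
    (B : (G → F) → F) (V : Subgroup (E ⧸ G)) (σ : Set (Subgroup E)) {g : E} (hg : g ∈ G) :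
    kGe red G B V (conjSub g '' σ) = kGe red G B V σ := by
  have : Fintype (Subgroup (E ⧸ G)) := Fintype.ofFinite _
  rw [kGe_eq, kGe_eq]
  refine Finset.sum_congr rfl fun W _ => ?_
  rw [kU_conj red G B W σ hg]

/-- the condition on a subgroup of `E/G` -/
def Sing (p : ℕ) (G : Subgroup E) [G.Normal] (U : Subgroup (E ⧸ G)) : Prop :=
  ∀ e : E, Subgroup.zpowers (e : E ⧸ G) = U → p ∣ Nat.card ↥(Subgroup.zpowers e ⊓ G)

theorem Sing.mono {p : ℕ} {G : Subgroup E} [G.Normal] {U V : Subgroup (E ⧸ G)}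
    (h : Sing p G U) (hUV : U ≤ V) (hV : IsCyclic V) : Sing p G V := by
  intro e he
  have hU : IsCyclic U :=
    isCyclic_of_injective (Subgroup.inclusion hUV) (Subgroup.inclusion_injective hUV)
  obtain ⟨u, hu⟩ := (Subgroup.isCyclic_iff_exists_zpowers_eq_top U).1 hU
  have hu' : u ∈ Subgroup.zpowers (e : E ⧸ G) := by
    rw [he]
    apply hUV
    rw [← hu]
    exact Subgroup.mem_zpowers u
  obtain ⟨k, hk⟩ := Subgroup.mem_zpowers_iff.1 hu'
  have h1 := h (e ^ k) (by rw [QuotientGroup.mk_zpow, hk, hu])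
  refine h1.trans (Subgroup.card_dvd_of_le (inf_le_inf_right _ ?_))
  rw [Subgroup.zpowers_le]
  exact Subgroup.zpow_mem _ (Subgroup.mem_zpowers e) k

theorem sum_ge {p : ℕ} [Fact p.Prime] [IsAlgClosed F] [CharP F p]
    (red : integralClosure ℤ ℂ →+* F) (G : Subgroup E) [G.Normal] {U : Subgroup (E ⧸ G)}
    (hc : IsCyclic U) (hs : Sing p G U) {B : (G → F) → F} (hB : IsBlock B) :
    invSum p G (fun σ => (kGe red G B U σ : ℤ)) = 0 := by
  have : Fintype (GCh p G) := Fintype.ofFinite _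
  rw [invSum_eq_zero G _ (fun g hg σ => by rw [kGe_conj red G B U σ hg])]
  obtain ⟨y, hy⟩ := (Subgroup.isCyclic_iff_exists_zpowers_eq_top U).1 hc
  rw [← sum_kY (p := p) red G y (fun e he => hs e (by rw [he, hy])) hB]
  refine Finset.sum_congr rfl fun σ _ => ?_
  congr 2
  norm_cast
  unfold kGe kY
  refine Nat.card_congr (Equiv.subtypeEquivRight fun χ => ?_)
  rw [← mem_NEbar, ← hy, Subgroup.zpowers_le]

theorem sum_U {p : ℕ} [Fact p.Prime] [IsAlgClosed F] [CharP F p]
    (red : integralClosure ℤ ℂ →+* F) (G : Subgroup E) [G.Normal] {B : (G → F) → F}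
    (hB : IsBlock B) (U : Subgroup (E ⧸ G)) (hc : ∀ V, U ≤ V → IsCyclic V) (hs : Sing p G U) :
    invSum p G (fun σ => (kU red G B U σ : ℤ)) = 0 := by
  have : Fintype (GCh p G) := Fintype.ofFinite _
  have : Fintype (Subgroup (E ⧸ G)) := Fintype.ofFinite _
  induction U using (wellFounded_gt (α := Subgroup (E ⧸ G))).induction with
  | _ U ih =>
  have h1 := sum_ge red G (hc U le_rfl) hs hB
  rw [invSum_eq_zero G _ (fun g hg σ => by rw [kGe_conj red G B U σ hg])] at h1
  rw [invSum_eq_zero G _ (fun g hg σ => by rw [kU_conj red G B U σ hg])]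
  have h2 : ∀ W : Subgroup (E ⧸ G), U < W → ∑ σ : GCh p G, (-1) ^ σ.1.ncard *
      ((Nat.card (NG G σ.1) : ℤ) * (kU red G B W σ.1 : ℤ)) = 0 := by
    intro W hW
    have h3 := ih W hW (fun V hV => hc V (hW.le.trans hV)) (hs.mono hW.le (hc W hW.le))
    rwa [invSum_eq_zero G _ (fun g hg σ => by rw [kU_conj red G B W σ hg])] at h3
  have h4 : ∑ σ : GCh p G, (-1) ^ σ.1.ncard *
      ((Nat.card (NG G σ.1) : ℤ) * (kGe red G B U σ.1 : ℤ)) =
      ∑ W : Subgroup (E ⧸ G), if U ≤ W then (∑ σ : GCh p G, (-1) ^ σ.1.ncard *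
        ((Nat.card (NG G σ.1) : ℤ) * (kU red G B W σ.1 : ℤ))) else 0 := by
    have h5 : ∀ σ : GCh p G, (-1) ^ σ.1.ncard *
        ((Nat.card (NG G σ.1) : ℤ) * (kGe red G B U σ.1 : ℤ)) =
        ∑ W : Subgroup (E ⧸ G), if U ≤ W then (-1) ^ σ.1.ncard *
          ((Nat.card (NG G σ.1) : ℤ) * (kU red G B W σ.1 : ℤ)) else 0 := by
      intro σ
      rw [kGe_eq, Nat.cast_sum, Finset.mul_sum, Finset.mul_sum]
      refine Finset.sum_congr rfl fun W _ => ?_
      by_cases h : U ≤ W
      · rw [if_pos h, if_pos h]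
      · rw [if_neg h, if_neg h, Nat.cast_zero, mul_zero, mul_zero]
    rw [Finset.sum_congr rfl fun σ _ => h5 σ, Finset.sum_comm]
    refine Finset.sum_congr rfl fun W _ => ?_
    by_cases h : U ≤ W
    · simp only [if_pos h]
    · simp only [if_neg h, Finset.sum_const_zero]
  rw [h4, Finset.sum_eq_single U] at h1
  · rw [if_pos le_rfl] at h1
    exact h1
  · intro W _ hW
    by_cases h : U ≤ W
    · rw [if_pos h]
      exact h2 W (lt_of_le_of_ne h (Ne.symm hW))
    · rw [if_neg h]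
  · intro h
    exact absurd (Finset.mem_univ _) h

end

end Pool.Agent.R674.Tw
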