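import Pool.Agent.R674.KB.Kdim

/-!
# The characteristic polynomial of a family of integral matrices with a common eigenbasis
-/

set_option autoImplicit false

open scoped Classical
open Polynomial (X C)

noncomputable section

namespace Pool.Agent.R674.Tw

section gen

variable {K Q I : Type} [Fintype K] [Fintype Q] [Fintype I]

/-- the linear combinations of integral matrices -/
def MG (N : K → Matrix Q Q ℤ) {A : Type} [CommRing A] (a : K → A) : Matrix Q Q A :=
  fun D D' => ∑ E, a E * ((N E D D' : ℤ) : A)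

theorem MG_map (N : K → Matrix Q Q ℤ) {A A' : Type} [CommRing A] [CommRing A'] (φ : A →+* A')
    (a : K → A) : (MG N a).map φ = MG N (fun E => φ (a E)) := by
  ext D D'
  simp only [Matrix.map_apply, MG, map_sum, map_mul, map_intCast]

variable (N : K → Matrix Q Q ℤ) (U : Matrix Q I ℂ) (W : Matrix I Q ℂ)
  (w : I → K → integralClosure ℤ ℂ)

theorem gen_complex (hUW : U * W = 1) (hWU : W * U = 1)
    (he : ∀ E D i, ∑ D', ((N E D D' : ℤ) : ℂ) * U D' i = (w i E : ℂ) * U D i) :
    (MG N (fun E : K => (MvPolynomial.X E : MvPolynomial K ℂ))).charpoly =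
      ∏ i : I, (X - C (∑ E, MvPolynomial.X E * MvPolynomial.C (w i E : ℂ))) := by
  have hcard : Fintype.card Q = Fintype.card I := by
    have h1 := Matrix.trace_mul_comm U W
    rw [hUW, hWU, Matrix.trace_one, Matrix.trace_one] at h1
    exact_mod_cast h1
  set M := MG N (fun E : K => (MvPolynomial.X E : MvPolynomial K ℂ)) with hM
  let cc : ℂ →+* MvPolynomial K ℂ := MvPolynomial.C
  let U' : Matrix Q I (MvPolynomial K ℂ) := U.map cc
  let W' : Matrix I Q (MvPolynomial K ℂ) := W.map cc
  let d : I → MvPolynomial K ℂ := fun i => ∑ E, MvPolynomial.X E * MvPolynomial.C (w i E : ℂ)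
  have h1 : U' * W' = 1 := by
    change U.map cc * W.map cc = 1
    rw [← Matrix.map_mul, hUW, Matrix.map_one _ (map_zero cc) (map_one cc)]
  have h2 : W' * U' = 1 := by
    change W.map cc * U.map cc = 1
    rw [← Matrix.map_mul, hWU, Matrix.map_one _ (map_zero cc) (map_one cc)]
  have h3 : M * U' = U' * Matrix.diagonal d := by
    ext1 D i
    rw [Matrix.mul_apply, Matrix.mul_diagonal]
    have e1 : ∀ D' : Q, M D D' * U' D' i =
        ∑ E, MvPolynomial.X E * cc (((N E D D' : ℤ) : ℂ) * U D' i) := by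
      intro D'
      rw [hM]
      change (∑ E, MvPolynomial.X E * ((N E D D' : ℤ) : MvPolynomial K ℂ)) *
        cc (U D' i) = _
      rw [Finset.sum_mul]
      refine Finset.sum_congr rfl fun E _ => ?_
      rw [map_mul, map_intCast, mul_assoc]
    rw [Finset.sum_congr rfl fun D' _ => e1 D', Finset.sum_comm]
    change _ = cc (U D i) * ∑ E, MvPolynomial.X E * cc (w i E : ℂ)
    rw [Finset.mul_sum]
    refine Finset.sum_congr rfl fun E _ => ?_
    rw [← Finset.mul_sum, ← map_sum, he, map_mul]
    ring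
  have h4 : M = U' * (Matrix.diagonal d * W') := by
    rw [← Matrix.mul_assoc, ← h3, Matrix.mul_assoc, h1, Matrix.mul_one]
  rw [h4, Matrix.charpoly_mul_comm_of_le _ _ hcard.ge, hcard, Nat.sub_self, pow_zero, one_mul,
    Matrix.mul_assoc, h2, Matrix.mul_one, Matrix.charpoly_diagonal]

theorem gen_int (hUW : U * W = 1) (hWU : W * U = 1)
    (he : ∀ E D i, ∑ D', ((N E D D' : ℤ) : ℂ) * U D' i = (w i E : ℂ) * U D i) :
    (MG N (fun E : K =>
      (MvPolynomial.X E : MvPolynomial K (integralClosure ℤ ℂ)))).charpoly =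
      ∏ i : I, (X - C (∑ E, MvPolynomial.X E * MvPolynomial.C (w i E))) := by
  let ι : MvPolynomial K (integralClosure ℤ ℂ) →+* MvPolynomial K ℂ :=
    MvPolynomial.map (algebraMap (integralClosure ℤ ℂ) ℂ)
  have hι : Function.Injective ι := MvPolynomial.map_injective _ Subtype.val_injective
  apply Polynomial.map_injective ι hι
  rw [← Matrix.charpoly_map, MG_map, Polynomial.map_prod]
  have e1 : (fun E : K => ι (MvPolynomial.X E)) = fun E => MvPolynomial.X E := by
    funext E
    exact MvPolynomial.map_X _ _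
  rw [e1, gen_complex N U W w hUW hWU he]
  refine Finset.prod_congr rfl fun i _ => ?_
  have e4 : ι (∑ E, MvPolynomial.X E * MvPolynomial.C (w i E)) =
      ∑ E, MvPolynomial.X E * MvPolynomial.C (w i E : ℂ) := by
    rw [map_sum]
    refine Finset.sum_congr rfl fun E _ => ?_
    rw [map_mul]
    have e2 : ι (MvPolynomial.X E) = MvPolynomial.X E := MvPolynomial.map_X _ _
    have e3 : ι (MvPolynomial.C (w i E)) = MvPolynomial.C (w i E : ℂ) :=
      MvPolynomial.map_C _ _
    rw [e2, e3]
  rw [Polynomial.map_sub, Polynomial.map_X, Polynomial.map_C, e4]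

theorem gen_red {F : Type} [Field F] (red : integralClosure ℤ ℂ →+* F)
    (hUW : U * W = 1) (hWU : W * U = 1)
    (he : ∀ E D i, ∑ D', ((N E D D' : ℤ) : ℂ) * U D' i = (w i E : ℂ) * U D i) (f : K → F) :
    (MG N f).charpoly = ∏ i : I, (X - C (∑ E, f E * red (w i E))) := by
  let ev : MvPolynomial K (integralClosure ℤ ℂ) →+* F := MvPolynomial.eval₂Hom red f
  have h1 := congrArg (Polynomial.map ev) (gen_int N U W w hUW hWU he)
  rw [← Matrix.charpoly_map, MG_map, Polynomial.map_prod] at h1
  have e1 : (fun E : K => ev (MvPolynomial.X E)) = f := by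
    funext E
    exact MvPolynomial.eval₂Hom_X' _ _ _
  rw [e1] at h1
  rw [h1]
  refine Finset.prod_congr rfl fun i _ => ?_
  rw [Polynomial.map_sub, Polynomial.map_X, Polynomial.map_C, map_sum]
  congr 2
  refine Finset.sum_congr rfl fun E _ => ?_
  rw [map_mul]
  have e2 : ev (MvPolynomial.X E) = f E := MvPolynomial.eval₂Hom_X' _ _ _
  have e3 : ev (MvPolynomial.C (w i E)) = red (w i E) := MvPolynomial.eval₂Hom_C _ _ _
  rw [e2, e3]

end gen

end Pool.Agent.R674.Tw
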