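import Pool.Agent.R674.Tw.Cdim
import Pool.Agent.R674.Tw.Defs

/-!
# The number of invariant irreducible characters of a subgroup and functions on a coset
-/

set_option autoImplicit false

open scoped Classical

noncomputable section

namespace Pool.Agent.R674.Tw

open Pool.Agent.Y63.NV
open Pool.Agent.Y930.NV
open Pool.Agent.R674.KB
open Pool.Agent.Y63.AWC (IsIrreducibleCharacter)

section sub

variable {Γ : Type} [Group Γ]

/-- the number of irreducible characters of `N` which are fixed by `h` and have the value `c` of the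
reduced central character at `z` -/
def KnumT {F : Type} [Field F] (red : integralClosure ℤ ℂ →+* F) (N : Subgroup Γ) (h : Γ)
    (z : Γ → F) (c : F) : ℕ :=
  Nat.card {χ : N → ℂ // IsIrreducibleCharacter χ ∧ Fixes h χ ∧
    centralValue red χ (fun x => z x) = c}

/-- conjugation with an element of the normaliser -/
def alp (N : Subgroup Γ) (h : Γ) (hh : ∀ n, n ∈ N ↔ h * n * h⁻¹ ∈ N) : N ≃* N where
  toFun n := ⟨h * n * h⁻¹, (hh n).1 n.2⟩
  invFun n := ⟨h⁻¹ * n * h, (hh _).2 (by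
    have e : h * (h⁻¹ * n * h) * h⁻¹ = n := by group
    rw [e]
    exact n.2)⟩
  left_inv n := Subtype.ext (by
    change h⁻¹ * (h * n * h⁻¹) * h = n
    group)
  right_inv n := Subtype.ext (by
    change h * (h⁻¹ * n * h) * h⁻¹ = n
    group)
  map_mul' a b := Subtype.ext (by
    change h * (a * b) * h⁻¹ = h * a * h⁻¹ * (h * b * h⁻¹)
    group)

theorem alp_coe (N : Subgroup Γ) (h : Γ) (hh : ∀ n, n ∈ N ↔ h * n * h⁻¹ ∈ N) (n : N) :
    ((alp N h hh n : N) : Γ) = h * n * h⁻¹ := rfl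

theorem fixes_iff {N : Subgroup Γ} {h : Γ} (hh : ∀ n, n ∈ N ↔ h * n * h⁻¹ ∈ N) (χ : N → ℂ) :
    Fixes h χ ↔ ∀ x, χ (alp N h hh x) = χ x := by
  constructor
  · intro h1 x
    exact h1 x _ (alp_coe N h hh x)
  · intro h1 n n' hn
    rw [← h1 n]
    congr 1
    exact Subtype.ext (by rw [hn, alp_coe])

/-- extension by zero to the coset -/
def extC {F : Type} [Field F] (N : Subgroup Γ) (h : Γ) : (N → F) →ₗ[F] (Γ → F) where
  toFun v := fun x => if hx : x * h⁻¹ ∈ N then v ⟨x * h⁻¹, hx⟩ else 0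
  map_add' a b := by
    funext x
    by_cases hx : x * h⁻¹ ∈ N <;> simp [hx]
  map_smul' c a := by
    funext x
    by_cases hx : x * h⁻¹ ∈ N <;> simp [hx]

theorem extC_mem {F : Type} [Field F] {N : Subgroup Γ} {h : Γ} (v : N → F) (n : N) :
    extC N h v ((n : Γ) * h) = v n := by
  have h1 : (n : Γ) * h * h⁻¹ ∈ N := by
    rw [mul_inv_cancel_right]
    exact n.2
  have h2 : extC N h v ((n : Γ) * h) = v ⟨(n : Γ) * h * h⁻¹, h1⟩ := dif_pos h1
  rw [h2]
  congr 1
  exact Subtype.ext (mul_inv_cancel_right _ _)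

theorem extC_not {F : Type} [Field F] {N : Subgroup Γ} {h : Γ} (v : N → F) {x : Γ}
    (hx : x * h⁻¹ ∉ N) : extC N h v x = 0 := dif_neg hx

theorem tdimh {F : Type} [Field F] (red : integralClosure ℤ ℂ →+* F) [Finite Γ]
    (N : Subgroup Γ) (h : Γ) (hh : ∀ n, n ∈ N ↔ h * n * h⁻¹ ∈ N) (z : Γ → F) (c : F)
    (hz : ∀ n ∈ N, ∀ x : Γ, z (n * x * n⁻¹) = z x) (hs : ∀ x : Γ, x ∉ N → z x = 0) :
    KnumT red N h z c = gk z {x : Γ | x * h⁻¹ ∈ N} N c := by
  have : Fintype N := Fintype.ofFinite N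
  have hcl : IsClassFun (fun x : N => z x) := fun g x => hz g g.2 x
  have h0 : KnumT red N h z c = Nat.card {χ : N → ℂ // IsIrreducibleCharacter χ ∧
      (∀ x, χ (alp N h hh x) = χ x) ∧ centralValue red χ (fun x : N => z x) = c} := by
    unfold KnumT
    refine Nat.card_congr (Equiv.subtypeEquivRight fun χ => ?_)
    rw [fixes_iff hh]
  rw [h0, tdim red (alp N h hh) (fun x : N => z x) hcl c]
  unfold gk
  have hrep : ∀ x : Γ, x * h⁻¹ ∈ N → ∃ n : N, x = (n : Γ) * h := fun x hx =>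
    ⟨⟨x * h⁻¹, hx⟩, by simp⟩
  refine finrank_eq' _ _ (extC N h) _ _ ?_ ?_ ?_ ?_ ?_ c
  · intro v hv
    exact kop_tv hcl hv
  · intro v hv
    refine ⟨fun x hx => extC_not v hx, fun j hj x => ?_⟩
    by_cases hx : x * h⁻¹ ∈ N
    · obtain ⟨n, rfl⟩ := hrep x hx
      have e1 : j * ((n : Γ) * h) * j⁻¹ =
          ((⟨j, hj⟩ * n * (alp N h hh ⟨j, hj⟩)⁻¹ : N) : Γ) * h := by
        rw [Subgroup.coe_mul, Subgroup.coe_mul, Subgroup.coe_inv, alp_coe]
        group
      rw [e1, extC_mem, extC_mem, hv]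
    · have hx' : j * x * j⁻¹ * h⁻¹ ∉ N := by
        intro hx'
        apply hx
        have h1 := N.mul_mem (N.mul_mem (N.inv_mem hj) hx') ((hh j).1 hj)
        have e : j⁻¹ * (j * x * j⁻¹ * h⁻¹) * (h * j * h⁻¹) = x * h⁻¹ := by group
        rwa [e] at h1
      rw [extC_not v hx, extC_not v hx']
  · intro w hw
    refine ⟨fun n => w ((n : Γ) * h), ?_, ?_⟩
    · intro g x
      have e1 : ((g * x * (alp N h hh g)⁻¹ : N) : Γ) * h = g * ((x : Γ) * h) * (g : Γ)⁻¹ := by
        rw [Subgroup.coe_mul, Subgroup.coe_mul, Subgroup.coe_inv, alp_coe]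
        group
      change w (((g * x * (alp N h hh g)⁻¹ : N) : Γ) * h) = w ((x : Γ) * h)
      rw [e1, hw.2 g g.2]
    · funext x
      by_cases hx : x * h⁻¹ ∈ N
      · obtain ⟨n, rfl⟩ := hrep x hx
        exact extC_mem _ n
      · rw [extC_not _ hx, hw.1 x hx]
  · intro v _ h0
    funext x
    have h1 := congrFun h0 ((x : Γ) * h)
    rw [extC_mem] at h1
    exact h1
  · intro v _
    funext x
    by_cases hx : x * h⁻¹ ∈ N
    · obtain ⟨n, rfl⟩ := hrep x hx
      rw [extC_mem, kop_app, kop_app, if_pos (Set.mem_univ _),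
        if_pos (show (n : Γ) * h ∈ {x : Γ | x * h⁻¹ ∈ N} from hx)]
      have e2 : ∀ g : N, z g * v (g * n) = z g * extC N h v ((g : Γ) * ((n : Γ) * h)) := by
        intro g
        have e3 := extC_mem (h := h) v (g * n)
        have e4 : ((g * n : N) : Γ) * h = (g : Γ) * ((n : Γ) * h) := by
          rw [Subgroup.coe_mul, mul_assoc]
        rw [e4] at e3
        rw [e3]
      rw [finsum_congr e2]
      have e4 : ∑ᶠ g : Γ, z g * extC N h v (g * ((n : Γ) * h)) =
          ∑ᶠ (g : Γ) (_ : g ∈ (N : Set Γ)), z g * extC N h v (g * ((n : Γ) * h)) := by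
        refine finsum_congr fun g => ?_
        by_cases hg : g ∈ (N : Set Γ)
        · simp [hg]
        · have h5 : z g = 0 := hs g hg
          simp [h5]
      rw [e4]
      exact finsum_set_coe_eq_finsum_mem
        (f := fun g : Γ => z g * extC N h v (g * ((n : Γ) * h))) (N : Set Γ)
    · rw [extC_not _ hx, kop_app, if_neg (show ¬ x ∈ {x : Γ | x * h⁻¹ ∈ N} from hx)]

end sub

end Pool.Agent.R674.Tw
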